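import Mathlib

set_option autoImplicit false

namespace Pool.Agent.Lib.helper16.PSL

open Matrix Matrix.SpecialLinearGroup
open scoped LinearAlgebra.Projectivization commutatorElement

variable {ι F : Type*} [Field F] [DecidableEq ι] [Fintype ι]

lemma diag2n_dec {i j : ι} (h : i ≠ j) (a : F) (ha : a ≠ 0) :
    diag2n h a ha = transvection h a * transvection h.symm (-a⁻¹) * transvection h a *
      transvection h (-1) * transvection h.symm 1 * transvection h (-1) := by
  refine Subtype.ext ?_
  simp only [coe_mul, transvection_coe, mul_add, add_mul, one_mul, mul_one, single_mul_single_same,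
    single_mul_single_of_ne _ _ _ _ h, single_mul_single_of_ne _ _ _ _ h.symm, diag2n_coe, add_zero,
    zero_mul]
  ext k l
  by_cases a1 : i = k <;> by_cases a2 : j = k <;> by_cases a3 : i = l <;> by_cases a4 : j = l <;>
    simp_all [diagonal_apply, one_apply, single_apply, eq_comm]

/-- `SL` over a field is generated by elementary transvections -/
theorem transvection_induction [Nontrivial ι] (P : SpecialLinearGroup ι F → Prop)
    (ht : ∀ (i j : ι) (h : i ≠ j) c, P (transvection h c))
    (hmul : ∀ A B, P A → P B → P (A * B)) (A : SpecialLinearGroup ι F) : P A := by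
  refine diagonal_transvection_induction' P _ (fun i j hij c hc ↦ ?_) ht hmul
  rw [diag2n_dec]
  refine hmul _ _ (hmul _ _ (hmul _ _ (hmul _ _ (hmul _ _ ?_ ?_) ?_) ?_) ?_) ?_
  all_goals exact ht _ _ _ _

theorem SL_perfect (h3 : 2 < Fintype.card ι) : Group.IsPerfect (SpecialLinearGroup ι F) := by
  haveI : Nontrivial ι := Fintype.one_lt_card_iff_nontrivial.1 (by omega)
  refine ⟨top_unique fun A _ => transvection_induction (· ∈ commutator _) (fun i j h c => ?_)
    (fun _ _ => mul_mem) A⟩
  obtain ⟨k, -, hk⟩ := Finset.exists_mem_notMem_of_card_lt_card (s := {i, j}) (t := Finset.univ)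
    (Finset.card_le_two.trans_lt h3)
  simp only [Finset.mem_insert, Finset.mem_singleton, not_or] at hk
  have : transvection h c = ⁅transvection (Ne.symm hk.1) c, transvection hk.2 (1 : F)⁆ := by
    rw [commutatorElement_def, transvection_inv, transvection_inv]
    refine Subtype.ext ?_
    simp only [coe_mul, transvection_coe, mul_add, add_mul, one_mul, mul_one,
      single_mul_single_same, single_mul_single_of_ne _ _ _ _ h.symm,
      single_mul_single_of_ne _ _ _ _ hk.1, single_mul_single_of_ne _ _ _ _ (Ne.symm hk.2),
      add_zero, zero_mul, mul_neg, ← single_neg, neg_mul, neg_zero]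
    abel
  rw [this]
  exact Subgroup.commutator_mem_commutator (Subgroup.mem_top _) (Subgroup.mem_top _)

/-- `PSL_n(F)` is simple for `n ≥ 3` -/
theorem PSL_simple (h3 : 2 < Fintype.card ι) : IsSimpleGroup (ProjectiveSpecialLinearGroup ι F) := by
  haveI : Nontrivial ι := Fintype.one_lt_card_iff_nontrivial.1 (by omega)
  haveI := SL_perfect (F := F) h3
  refine MulAction.IwasawaStructure.isSimpleGroup (α := ℙ F (ι → F))
    Group.IsPerfect.commutator_eq_top ⟨PSL.iwasawaT, fun p => ?_, fun g p => ?_, ?_⟩ inferInstance
  · have hSL : IsMulCommutative (lineStab (F := F) (ι := ι) p.submodule) := by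
      rw [← Projectivization.mk_rep p, Projectivization.submodule_mk]
      exact lineStab_isMulCommutative_of_span p.rep p.rep_nonzero
    exact Subgroup.map_isMulCommutative _ _
  · obtain ⟨g, rfl⟩ := QuotientGroup.mk_surjective g
    rw [Matrix.ProjectiveSpecialLinearGroup.smul_proj_mk]
    change Subgroup.map _ _ = _
    rw [PSL.smul_submodule, lineStab_smul, PSL.iwasawaT_map_conj]
  · have : (⨆ p : ℙ F (ι → F), lineStab (F := F) (ι := ι) p.submodule) = ⊤ :=
      top_unique fun A _ => transvection_induction (· ∈ _) (fun i j h c => by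
        refine Subgroup.mem_iSup_of_mem
          (Projectivization.mk F (Pi.single i 1) (Pi.single_ne_zero_iff.2 one_ne_zero)) ?_
        rw [Projectivization.submodule_mk]
        exact SL2Gen.transvection_mem_lineStab h c) (fun _ _ => mul_mem) A
    rw [← Subgroup.map_top_of_surjective _ (QuotientGroup.mk'_surjective _), ← this,
      Subgroup.map_iSup]

end Pool.Agent.Lib.helper16.PSL
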