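import Mathlib

set_option maxHeartbeats 400000

namespace Pool.Agent.Lib.Fitting

open Subgroup

/-- Fitting classes -/
def Fit (C : (G : Type) → [Group G] → Prop) : Prop :=
  (∀ (G K : Type) [Group G] [Group K], Nonempty (G ≃* K) → C G → C K) ∧
    (∀ (G : Type) [Group G] [Finite G] (N : Subgroup G), N.Normal → C G → C ↥N) ∧
    (∀ (G : Type) [Group G] [Finite G] (N K : Subgroup G),
      N.Normal → K.Normal → C ↥N → C ↥K → C ↥(N ⊔ K))

variable {C : (G : Type) → [Group G] → Prop} {G : Type} [Group G] [Finite G]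

theorem Fit.down (hC : Fit C) {U V : Subgroup G} (h : U ≤ V) (hn : (U.subgroupOf V).Normal)
    (hV : C V) : C U :=
  hC.1 _ _ ⟨subgroupOfEquivOfLe h⟩ (hC.2.1 _ _ hn hV)

theorem Fit.sup (hC : Fit C) {U U' V : Subgroup G} (h : U ≤ V) (h' : U' ≤ V)
    (hn : (U.subgroupOf V).Normal) (hn' : (U'.subgroupOf V).Normal) (hU : C U) (hU' : C U') :
    C ↥(U ⊔ U') := by
  have := hC.2.2 _ _ _ hn hn' (hC.1 _ _ ⟨(subgroupOfEquivOfLe h).symm⟩ hU)
    (hC.1 _ _ ⟨(subgroupOfEquivOfLe h').symm⟩ hU')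
  rw [← subgroupOf_sup h h'] at this
  exact hC.1 _ _ ⟨subgroupOfEquivOfLe (sup_le h h')⟩ this

omit [Finite G] in
theorem Fit.bot (hC : Fit C) (h : ∃ (K : Type) (_ : Group K) (_ : Finite K), C K) :
    C (⊥ : Subgroup G) := by
  obtain ⟨K, _, _, h⟩ := h
  exact hC.1 _ _ ⟨MulEquiv.ofUnique⟩ (hC.2.1 K ⊥ inferInstance h)

omit [Finite G] in
theorem Fit.top (hC : Fit C) : C (⊤ : Subgroup G) ↔ C G :=
  ⟨hC.1 _ _ ⟨topEquiv⟩, hC.1 _ _ ⟨topEquiv.symm⟩⟩

theorem Fit.rad (hC : Fit C) (h : ∃ (K : Type) (_ : Group K) (_ : Finite K), C K) :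
    ∃ N : Subgroup G, N.Normal ∧ C N ∧ ∀ K : Subgroup G, K.Normal → C K → K ≤ N := by
  obtain ⟨N, h1, h2⟩ := (Set.toFinite {N : Subgroup G | N.Normal ∧ C N}).exists_maximal
    ⟨⊥, inferInstance, hC.bot h⟩
  refine ⟨N, h1.1, h1.2, fun K k1 k2 => le_sup_right.trans (h2 ⟨?_, hC.2.2 _ _ _ h1.1 k1 h1.2 k2⟩
    le_sup_left)⟩
  have := h1.1
  infer_instance

theorem Fit.sub (hC : Fit C) [Group.IsNilpotent G] (h : C G) (U : Subgroup G) : C U := by
  induction U using WellFoundedGT.induction with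
  | ind U ih =>
    by_cases e : U = ⊤
    · exact e ▸ hC.top.2 h
    · exact hC.down le_normalizer ((normal_subgroupOf_iff_le_normalizer le_normalizer).2 le_rfl)
        (ih _ (normalizerCondition_of_isNilpotent U (lt_top_iff_ne_top.2 e)))

theorem Fit.max_normal (hC : Fit C) [Group.IsNilpotent G] {U : Subgroup G} (h : C U)
    (hm : ∀ V : Subgroup G, C V → U ≤ V → V ≤ U) : U.Normal := by
  rw [← normalizer_eq_top_iff]
  by_contra e
  obtain ⟨g, hg, h1⟩ := SetLike.exists_of_lt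
    (normalizerCondition_of_isNilpotent _ (lt_top_iff_ne_top.2 e))
  have key : ∀ g ∈ normalizer (normalizer (U : Set G) : Set G), ∀ u ∈ U, g * u * g⁻¹ ∈ U :=
    fun g hg u hu => by
      have h2 : U.map (MulAut.conj g).toMonoidHom ≤ normalizer (U : Set G) := by
        rintro _ ⟨u, hu, rfl⟩
        exact (mem_normalizer_iff.1 hg u).1 (le_normalizer hu)
      refine hm _ (hC.sup le_normalizer h2
        ((normal_subgroupOf_iff_le_normalizer le_normalizer).2 le_rfl)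
        ((normal_subgroupOf_iff h2).2 ?_) h
        (hC.1 _ _ ⟨equivMapOfInjective _ _ (MulEquiv.injective _)⟩ h)) le_sup_left
        (mem_sup_right ⟨u, hu, rfl⟩)
      rintro _ k ⟨v, hv, rfl⟩ hk
      exact ⟨_, (mem_normalizer_iff.1 ((mem_normalizer_iff''.1 hg k).1 hk) v).1 hv,
        by simp [mul_assoc]⟩
  exact h1 (mem_normalizer_iff.2 fun u => ⟨key g hg u, fun hu => by
    simpa [mul_assoc] using key _ (inv_mem hg) _ hu⟩)

theorem Fit.nil_rad (hC : Fit C) [Group.IsNilpotent G]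
    (h : ∃ (K : Type) (_ : Group K) (_ : Finite K), C K) :
    ∃ R : Subgroup G, ∀ U : Subgroup G, C U ↔ U ≤ R := by
  obtain ⟨R, h1, h2, h3⟩ := hC.rad (G := G) h
  refine ⟨R, fun U => ⟨fun hU => ?_, fun hU =>
    hC.1 _ _ ⟨subgroupOfEquivOfLe hU⟩ (hC.sub h2 _)⟩⟩
  obtain ⟨V, v1, v2, v3⟩ := (Set.toFinite {V : Subgroup G | C V}).exists_le_maximal hU
  exact v1.trans (h3 V (hC.max_normal v2 fun W w1 w2 => v3 w1 w2) v2)

theorem Fit.cyc (hC : Fit C) {K : Type} [Group K] [Finite K] {a : G} {b : K}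
    (h : orderOf a = orderOf b) (ha : C (zpowers a)) : C (zpowers b) :=
  hC.1 _ _ ⟨mulEquivOfCyclicCardEq (by rw [Nat.card_zpowers, Nat.card_zpowers, h])⟩ ha

theorem Fit.pgroup (hC : Fit C) {p : ℕ} [hp : Fact p.Prime] {K : Type} [Group K] [Finite K] {b : K}
    (hb : orderOf b = p) (h : C (zpowers b)) (hG : IsPGroup p G) : C G := by
  classical
  have hn : ∃ (K : Type) (_ : Group K) (_ : Finite K), C K := ⟨_, _, inferInstance, h⟩
  have := hG.isNilpotent
  obtain ⟨R, hR⟩ := hC.nil_rad (G := G) hn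
  refine hC.top.1 ((hR _).2 fun a _ => (hR _).1 ?_ (mem_zpowers a))
  obtain ⟨n, h1⟩ := hG.exists_card_eq
  have hW : IsPGroup p (G ≀ᵣ zpowers b) := IsPGroup.of_card (n := n * p + 1) (by
    rw [RegularWreathProduct.card, Nat.card_zpowers, h1, hb, ← pow_mul, pow_succ])
  have := hW.isNilpotent
  obtain ⟨S, hS⟩ := hC.nil_rad (G := G ≀ᵣ zpowers b) hn
  let s : G ≀ᵣ zpowers b := RegularWreathProduct.inl ⟨b, mem_zpowers b⟩
  let φ : (zpowers b → G) →* G ≀ᵣ zpowers b := MonoidHom.mk' (fun f => ⟨f, 1⟩) fun f g => by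
    ext <;> simp
  have hs : orderOf b = orderOf s := by
    rw [orderOf_injective _ (Function.LeftInverse.injective RegularWreathProduct.fun_id),
      orderOf_mk]
  have h2 : ∀ v, v * s * v⁻¹ ∈ S := fun v => (hS _).1
    (hC.cyc (hs.trans (orderOf_injective (MulAut.conj v).toMonoidHom
      (MulEquiv.injective _) s).symm) h) (mem_zpowers _)
  have h3 := mul_mem (h2 (φ (Pi.mulSingle 1 a))) (inv_mem (by simpa using h2 1 : s ∈ S))
  refine hC.cyc ?_ ((hS _).2 (zpowers_le.2 h3))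
  have h4 : (⟨b, mem_zpowers b⟩ : zpowers b) ≠ 1 := fun e => by
    rw [show b = 1 from congrArg Subtype.val e, orderOf_one] at hb
    exact hp.1.one_lt.ne hb
  have h5 : φ (Pi.mulSingle 1 a) * s * (φ (Pi.mulSingle 1 a))⁻¹ * s⁻¹ =
      φ (Pi.mulSingle 1 a * Pi.mulSingle ⟨b, mem_zpowers b⟩ a⁻¹) := by
    ext x
    · simp [φ, s, Pi.mulSingle_apply, inv_mul_eq_one, @eq_comm _ x]
      split_ifs <;> simp
    · simp [φ, s]
  rw [h5, orderOf_injective φ fun f g e => congrArg RegularWreathProduct.left e,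
    orderOf_eq_orderOf_iff]
  refine fun k => ⟨fun e => by simpa [Pi.mulSingle_apply, h4.symm] using congrFun e 1, fun e => ?_⟩
  rw [(Pi.mulSingle_commute h4.symm _ _).mul_pow, ← Pi.mulSingle_pow, ← Pi.mulSingle_pow, inv_pow,
    e]
  simp

end Pool.Agent.Lib.Fitting
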