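import Mathlib

set_option maxHeartbeats 400000

namespace Pool.Agent.Lib.GLS

open Subgroup Function

/-- saturated formations of finite groups -/
structure SF (F : (G : Type) → [Group G] → Prop) : Prop where
  iso : ∀ (G H : Type) [Group G] [Group H] [Finite G], Nonempty (G ≃* H) → F G → F H
  quo : ∀ (G : Type) [Group G] [Finite G] (N : Subgroup G) [N.Normal], F G → F (G ⧸ N)
  rz : ∀ (G : Type) [Group G] [Finite G] (N₁ N₂ : Subgroup G) [N₁.Normal] [N₂.Normal],
    N₁ ⊓ N₂ = ⊥ → F (G ⧸ N₁) → F (G ⧸ N₂) → F G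
  sat : ∀ (G : Type) [Group G] [Finite G], F (G ⧸ frattini G) → F G

variable {F : (G : Type) → [Group G] → Prop}

theorem SF.img (hF : SF F) {G H : Type} [Group G] [Group H] [Finite G] (φ : G →* H)
    (hφ : Surjective φ) (h : F G) : F H :=
  hF.iso _ _ ⟨QuotientGroup.quotientKerEquivOfSurjective φ hφ⟩ (hF.quo G φ.ker h)

theorem SF.ker (hF : SF F) {G H : Type} [Group G] [Group H] [Finite G] (φ : G →* H)
    (hφ : Surjective φ) (h : F H) : F (G ⧸ φ.ker) := by
  haveI : Finite H := Finite.of_surjective φ hφ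
  exact hF.iso _ _ ⟨(QuotientGroup.quotientKerEquivOfSurjective φ hφ).symm⟩ h

theorem SF.range (hF : SF F) {G H : Type} [Group G] [Group H] [Finite G] (φ : G →* H)
    (h : F G) : F φ.range :=
  hF.img φ.rangeRestrict φ.rangeRestrict_surjective h

theorem SF.r0 (hF : SF F) {G H K : Type} [Group G] [Group H] [Group K] [Finite G]
    (φ : G →* H) (ψ : G →* K) (hφ : Surjective φ) (hψ : Surjective ψ)
    (hk : ∀ g, φ g = 1 → ψ g = 1 → g = 1) (h1 : F H) (h2 : F K) : F G := by
  refine hF.rz G φ.ker ψ.ker ?_ (hF.ker φ hφ h1) (hF.ker ψ hψ h2)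
  rw [eq_bot_iff]
  rintro g ⟨a, b⟩
  exact hk g a b

/-- factor through a surjection -/
theorem SF.fac (hF : SF F) {G H K : Type} [Group G] [Group H] [Group K] [Finite G]
    (φ : G →* H) (ψ : G →* K) (hφ : Surjective φ) (hψ : Surjective ψ)
    (hk : φ.ker ≤ ψ.ker) (h : F H) : F K := by
  refine hF.img (QuotientGroup.lift φ.ker ψ hk) ?_ (hF.ker φ hφ h)
  intro k
  obtain ⟨g, rfl⟩ := hψ k
  exact ⟨g, rfl⟩

theorem SF.frat (hF : SF F) {G H : Type} [Group G] [Group H] [Finite G]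
    (φ : G →* H) (hφ : Surjective φ) (hk : φ.ker ≤ frattini G) (h : F H) : F G :=
  hF.sat G (hF.fac φ (QuotientGroup.mk' (frattini G)) hφ (QuotientGroup.mk'_surjective _)
    (by rwa [QuotientGroup.ker_mk']) h)

theorem SF.frat2 (hF : SF F) {G H K : Type} [Group G] [Group H] [Group K] [Finite G]
    (φ : G →* H) (ψ : G →* K) (hφ : Surjective φ) (hψ : Surjective ψ)
    (hk : φ.ker ⊓ ψ.ker ≤ frattini G) (h1 : F H) (h2 : F K) : F G := by
  refine hF.frat (QuotientGroup.mk' (φ.ker ⊓ ψ.ker)) (QuotientGroup.mk'_surjective _)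
    (by rwa [QuotientGroup.ker_mk']) ?_
  refine hF.r0 (QuotientGroup.lift _ φ inf_le_left) (QuotientGroup.lift _ ψ inf_le_right)
    ?_ ?_ ?_ h1 h2
  · intro k
    obtain ⟨g, rfl⟩ := hφ k
    exact ⟨g, rfl⟩
  · intro k
    obtain ⟨g, rfl⟩ := hψ k
    exact ⟨g, rfl⟩
  · intro g
    obtain ⟨g, rfl⟩ := QuotientGroup.mk_surjective g
    intro a b
    exact (QuotientGroup.eq_one_iff g).2 ⟨a, b⟩

/-- subdirect products -/
theorem SF.sub (hF : SF F) {G H : Type} [Group G] [Group H] [Finite G] [Finite H]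
    (D : Subgroup (G × H)) (h1 : ∀ g, ∃ h, (g, h) ∈ D) (h2 : ∀ h, ∃ g, (g, h) ∈ D)
    (hG : F G) (hH : F H) : F D := by
  refine hF.r0 ((MonoidHom.fst G H).comp D.subtype) ((MonoidHom.snd G H).comp D.subtype)
    ?_ ?_ ?_ hG hH
  · intro g
    obtain ⟨h, hh⟩ := h1 g
    exact ⟨⟨_, hh⟩, rfl⟩
  · intro h
    obtain ⟨g, hh⟩ := h2 h
    exact ⟨⟨_, hh⟩, rfl⟩
  · intro g a b
    exact Subtype.ext (Prod.ext a b)

theorem le_frat {G : Type} [Group G] {A : Subgroup G} (h : ∀ M : Subgroup G, IsCoatom M → A ≤ M) :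
    A ≤ frattini G := by
  unfold frattini Order.radical
  exact le_iInf₂ h

theorem lt_card {G : Type} [Group G] [Finite G] {M : Subgroup G} (h : M ≠ ⊤) :
    Nat.card M < Nat.card G := by
  by_contra hc
  exact h (Subgroup.eq_top_of_le_card M (not_lt.1 hc))

theorem lt_card_quo {G : Type} [Group G] [Finite G] {N : Subgroup G} (h : N ≠ ⊥) :
    Nat.card (G ⧸ N) < Nat.card G := by
  have h1 := Subgroup.card_eq_card_quotient_mul_card_subgroup N
  have h2 : 1 < Nat.card N := (Subgroup.one_lt_card_iff_ne_bot N).2 h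
  have h3 : 0 < Nat.card (G ⧸ N) := Nat.card_pos
  nlinarith

theorem coatom_onto {E G : Type} [Group E] [Group G] (π : E →* G) (hπ : Surjective π)
    {M A : Subgroup E} (hM : IsCoatom M) (hA : A ≤ π.ker) (hn : ¬ A ≤ M) :
    Surjective (π.comp M.subtype) := by
  have h1 : M ⊔ π.ker = ⊤ := hM.2 _ (left_lt_sup.2 fun h => hn (hA.trans h))
  intro g
  obtain ⟨e, rfl⟩ := hπ g
  have : e ∈ ((M ⊔ π.ker : Subgroup E) : Set E) := by rw [h1]; trivial
  rw [Subgroup.mul_normal] at this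
  obtain ⟨m, hm, a, ha, rfl⟩ := this
  refine ⟨⟨m, hm⟩, ?_⟩
  have : π a = 1 := ha
  simp [this]

/-- minimal supplements lie in the formation -/
theorem SF.supp (hF : SF F) {G : Type} [Group G] (hG : F G) :
    ∀ (n : ℕ) (E : Type) [Group E] [Finite E] (π : E →* G), Nat.card E = n → Surjective π →
      ∃ (E0 : Type) (_ : Group E0) (_ : Finite E0) (ι : E0 →* E), Injective ι ∧
        Surjective (π.comp ι) ∧ F E0 := by
  intro n
  induction n using Nat.strong_induction_on with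
  | _ n ih =>
    intro E _ _ π hn hπ
    by_cases h : π.ker ≤ frattini E
    · exact ⟨E, inferInstance, inferInstance, MonoidHom.id E, injective_id, hπ,
        hF.frat π hπ h hG⟩
    · have : ∃ M : Subgroup E, IsCoatom M ∧ ¬ π.ker ≤ M := by
        by_contra hc
        push Not at hc
        exact h (le_frat hc)
      obtain ⟨M, hM, hn'⟩ := this
      obtain ⟨E0, _, _, ι, h1, h2, h3⟩ := ih _ (hn ▸ lt_card hM.1) M (π.comp M.subtype) rfl
        (coatom_onto π hπ hM le_rfl hn')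
      exact ⟨E0, inferInstance, inferInstance, M.subtype.comp ι,
        M.subtype_injective.comp h1, h2, h3⟩

end Pool.Agent.Lib.GLS
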