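import Pool.Agent.Lib.helper16.GLS1

set_option maxHeartbeats 400000

namespace Pool.Agent.Lib.GLS

open Subgroup Function RegularWreathProduct Multiplicative

abbrev W (p : ℕ) (G : Type) [Group G] := Multiplicative (ZMod p) ≀ᵣ G

variable {F : (G : Type) → [Group G] → Prop} {p : ℕ} {G : Type} [Group G]

/-- admissible subgroups of the wreath product -/
def Adm (F : (G : Type) → [Group G] → Prop) (S : Subgroup (W p G)) : Prop :=
  (∀ g, inl g ∈ S) ∧ F S

def IsMx (F : (G : Type) → [Group G] → Prop) (S : Subgroup (W p G)) : Prop :=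
  Adm F S ∧ ∀ S' : Subgroup (W p G), Adm F S' → S' ≤ S

def bs (f : G → ZMod p) (g : G) : W p G := ⟨fun x => ofAdd (f x), g⟩

@[simp] theorem bs_left (f : G → ZMod p) (g x : G) : (bs f g).left x = ofAdd (f x) := rfl
@[simp] theorem bs_right (f : G → ZMod p) (g : G) : (bs f g).right = g := rfl

/-- base part -/
def R (S : Subgroup (W p G)) : AddSubgroup (G → ZMod p) where
  carrier := {f | bs f 1 ∈ S}
  zero_mem' := by
    have : (bs 0 1 : W p G) = 1 := by ext <;> simp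
    show bs 0 1 ∈ S
    rw [this]; exact S.one_mem
  add_mem' := by
    intro f f' h h'
    have : (bs (f + f') 1 : W p G) = bs f 1 * bs f' 1 := by ext <;> simp
    show bs (f + f') 1 ∈ S
    rw [this]; exact S.mul_mem h h'
  neg_mem' := by
    intro f h
    have : (bs (-f) 1 : W p G) = (bs f 1)⁻¹ := by ext <;> simp
    show bs (-f) 1 ∈ S
    rw [this]; exact S.inv_mem h

theorem bs_mem {S : Subgroup (W p G)} (hS : ∀ g, inl g ∈ S) (f : G → ZMod p) (g : G) :
    bs f g ∈ S ↔ f ∈ R S := by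
  have : bs f g = bs f 1 * inl g := by ext <;> simp
  rw [this, S.mul_mem_cancel_right (hS g)]
  rfl

theorem mem_iff {S : Subgroup (W p G)} (hS : ∀ g, inl g ∈ S) (w : W p G) :
    w ∈ S ↔ (fun x => toAdd (w.left x)) ∈ R S :=
  bs_mem hS (fun x => toAdd (w.left x)) w.right

theorem R_tr {S : Subgroup (W p G)} (hS : ∀ g, inl g ∈ S) {f : G → ZMod p} (hf : f ∈ R S)
    (g : G) : (fun x => f (g * x)) ∈ R S := by
  have := S.mul_mem (hS g⁻¹) hf
  rw [mem_iff hS] at this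
  simpa using this

variable [Finite G] [NeZero p]

theorem Adm.sum (hF : SF F) {S T : Subgroup (W p G)} (hS : Adm F S) (hT : Adm F T) :
    ∃ U : Subgroup (W p G), Adm F U ∧ S ≤ U ∧ T ≤ U := by
  let D : Subgroup (S × T) :=
    { carrier := {d | (d.1 : W p G).right = (d.2 : W p G).right}
      one_mem' := rfl
      mul_mem' := by
        intro a b ha hb
        simp only [Set.mem_setOf_eq] at ha hb ⊢
        simp [ha, hb]
      inv_mem' := by
        intro a ha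
        simp only [Set.mem_setOf_eq] at ha ⊢
        simp [ha] }
  have hD : F D := hF.sub D (fun s => ⟨⟨inl (s : W p G).right, hT.1 _⟩, rfl⟩)
    (fun s => ⟨⟨inl (s : W p G).right, hS.1 _⟩, rfl⟩) hS.2 hT.2
  let ψ : D →* W p G := MonoidHom.mk'
    (fun d => ⟨(d.1.1 : W p G).left * (d.1.2 : W p G).left, (d.1.1 : W p G).right⟩) (by
      intro a b
      have ha : (a.1.1 : W p G).right = (a.1.2 : W p G).right := a.2
      ext x
      · simp [ha, mul_mul_mul_comm]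
      · simp)
  have h1 : S ≤ ψ.range := fun s hs =>
    ⟨⟨(⟨s, hs⟩, ⟨inl s.right, hT.1 _⟩), rfl⟩, by ext <;> simp [ψ]⟩
  refine ⟨ψ.range, ⟨fun g => h1 (hS.1 g), hF.range ψ hD⟩, h1, fun s hs =>
    ⟨⟨(⟨inl s.right, hS.1 _⟩, ⟨s, hs⟩), rfl⟩, by ext <;> simp [ψ]⟩⟩

theorem exMx (hF : SF F) (hG : F G) : ∃ S : Subgroup (W p G), IsMx F S := by
  have h0 : Adm F (inl : G →* W p G).range := ⟨fun g => ⟨g, rfl⟩, hF.range _ hG⟩
  obtain ⟨S, hS, hm⟩ := (wellFounded_gt (α := Subgroup (W p G))).has_min {S | Adm F S} ⟨_, h0⟩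
  refine ⟨S, hS, fun T hT => ?_⟩
  obtain ⟨U, hU, h1, h2⟩ := Adm.sum hF hS hT
  have : S = U := by
    by_contra hne
    exact hm U hU (lt_of_le_of_ne h1 hne)
  exact this ▸ h2

theorem IsMx.hom (hF : SF F) {S : Subgroup (W p G)} (hS : IsMx F S) {D : Type} [Group D]
    [Finite D] (hD : F D) (ψ : D →* W p G) (h : ∀ g, ∃ d, ψ d = inl g) (d : D) : ψ d ∈ S :=
  hS.2 ψ.range ⟨h, hF.range ψ hD⟩ ⟨d, rfl⟩

theorem IsMx.rt (hF : SF F) {S : Subgroup (W p G)} (hS : IsMx F S) {f : G → ZMod p}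
    (hf : f ∈ R S) (h : G) : (fun x => f (x * h)) ∈ R S := by
  let ρ : W p G →* W p G := MonoidHom.mk' (fun w => ⟨fun x => w.left (x * h), w.right⟩) (by
    intro a b
    ext x
    · simp [mul_assoc]
    · simp)
  exact hS.hom hF hS.1.2 (ρ.comp S.subtype) (fun g => ⟨⟨inl g, hS.1.1 g⟩, rfl⟩) ⟨bs f 1, hf⟩

theorem IsMx.bk (hF : SF F) {S : Subgroup (W p G)} (hS : IsMx F S) {E : Type} [Group E]
    [Finite E] (hE : F E) (π : E →* G) (hπ : Surjective π) (A : Subgroup E) [hA : A.Normal]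
    (θ : E → G → ZMod p) (h1 : ∀ a ∈ A, ∀ b ∈ A, θ (a * b) = θ a + θ b)
    (h2 : ∀ e, ∀ a ∈ A, ∀ x, θ (e * a * e⁻¹) x = θ a ((π e)⁻¹ * x)) :
    ∀ a ∈ A, θ a ∈ R S := by
  have h0 : θ 1 = 0 := by
    have := h1 1 A.one_mem 1 A.one_mem
    simpa using this
  have key : ∀ a b : E × E, (a * b).1 * (a * b).2⁻¹ =
      (a.1 * a.2⁻¹) * (a.2 * (b.1 * b.2⁻¹) * a.2⁻¹) := by
    intro a b
    simp only [Prod.fst_mul, Prod.snd_mul]
    group
  let D : Subgroup (E × E) :=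
    { carrier := {d | d.1 * d.2⁻¹ ∈ A}
      one_mem' := by simp
      mul_mem' := by
        intro a b ha hb
        simp only [Set.mem_setOf_eq] at ha hb ⊢
        rw [key]
        exact A.mul_mem ha (hA.conj_mem _ hb _)
      inv_mem' := by
        intro a ha
        simp only [Set.mem_setOf_eq] at ha ⊢
        have := hA.conj_mem _ (A.inv_mem ha) a.1⁻¹
        have e : a.1⁻¹ * (a.1 * a.2⁻¹)⁻¹ * a.1⁻¹⁻¹ = a⁻¹.1 * a⁻¹.2⁻¹ := by
          simp only [Prod.fst_inv, Prod.snd_inv]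
          group
        rwa [e] at this }
  have hD : F D := hF.sub D (fun e => ⟨e, by show e * e⁻¹ ∈ A; simp⟩)
    (fun e => ⟨e, by show e * e⁻¹ ∈ A; simp⟩) hE hE
  let ψ : D →* W p G := MonoidHom.mk' (fun d => bs (θ (d.1.1 * d.1.2⁻¹)) (π d.1.2)) (by
    intro a b
    have ha : a.1.1 * a.1.2⁻¹ ∈ A := a.2
    have hb : b.1.1 * b.1.2⁻¹ ∈ A := b.2
    ext x
    · rw [Subgroup.coe_mul, key, h1 _ ha _ (hA.conj_mem _ hb _)]
      simp only [bs_left, Pi.add_apply, mul_left, Pi.mul_apply, bs_right, h2 _ _ hb]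
      rfl
    · simp)
  intro a ha
  have := hS.hom hF hD ψ (fun g => by
    obtain ⟨e, rfl⟩ := hπ g
    refine ⟨⟨(e, e), by show e * e⁻¹ ∈ A; simp⟩, ?_⟩
    ext x <;> simp [ψ, h0]) ⟨(a, 1), by show a * 1⁻¹ ∈ A; simpa using ha⟩
  have e : ψ ⟨(a, 1), by show a * 1⁻¹ ∈ A; simpa using ha⟩ = bs (θ a) 1 := by simp [ψ]
  rw [e] at this
  exact this

end Pool.Agent.Lib.GLS
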