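import Pool.Agent.Lib.helper16.GLS2

set_option maxHeartbeats 400000

namespace Pool.Agent.Lib.GLS

open Subgroup Function RegularWreathProduct Multiplicative

/-- Heisenberg group -/
@[ext] structure Hs (K : Type) where
  a : K
  b : K
  c : K

namespace Hs
variable {K : Type} [CommRing K]
instance : Mul (Hs K) := ⟨fun x y => ⟨x.a + y.a, x.b + y.b, x.c + y.c + x.a * y.b⟩⟩
instance : One (Hs K) := ⟨⟨0, 0, 0⟩⟩
instance : Inv (Hs K) := ⟨fun x => ⟨-x.a, -x.b, -x.c + x.a * x.b⟩⟩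
@[simp] theorem mul_a (x y : Hs K) : (x * y).a = x.a + y.a := rfl
@[simp] theorem mul_b (x y : Hs K) : (x * y).b = x.b + y.b := rfl
@[simp] theorem mul_c (x y : Hs K) : (x * y).c = x.c + y.c + x.a * y.b := rfl
@[simp] theorem one_a : (1 : Hs K).a = 0 := rfl
@[simp] theorem one_b : (1 : Hs K).b = 0 := rfl
@[simp] theorem one_c : (1 : Hs K).c = 0 := rfl
@[simp] theorem inv_a (x : Hs K) : x⁻¹.a = -x.a := rfl
@[simp] theorem inv_b (x : Hs K) : x⁻¹.b = -x.b := rfl
@[simp] theorem inv_c (x : Hs K) : x⁻¹.c = -x.c + x.a * x.b := rfl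
instance : Group (Hs K) := Group.ofLeftAxioms
  (by intro x y z; ext <;> simp <;> ring) (by intro x; ext <;> simp)
  (by intro x; ext <;> simp)
instance [Finite K] : Finite (Hs K) :=
  Finite.of_injective (fun x : Hs K => (x.a, x.b, x.c)) (by
    intro x y h
    simp only [Prod.mk.injEq] at h
    exact Hs.ext h.1 h.2.1 h.2.2)
end Hs

variable {F : (G : Type) → [Group G] → Prop} {p : ℕ} {G : Type} [Group G]

def pa : Hs (ZMod p) ≀ᵣ G →* W p G := MonoidHom.mk' (fun w => bs (fun x => (w.left x).a) w.right)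
  (by intro a b; ext x <;> simp)
def pb : Hs (ZMod p) ≀ᵣ G →* W p G := MonoidHom.mk' (fun w => bs (fun x => (w.left x).b) w.right)
  (by intro a b; ext x <;> simp)

def hb (f f' c : G → ZMod p) (g : G) : Hs (ZMod p) ≀ᵣ G := ⟨fun x => ⟨f x, f' x, c x⟩, g⟩

variable [Finite G] [NeZero p]

theorem IsMx.mul (hF : SF F) {S : Subgroup (W p G)} (hS : IsMx F S) {f f' : G → ZMod p}
    (hf : f ∈ R S) (hf' : f' ∈ R S) : f * f' ∈ R S := by
  let W0 : AddSubgroup (G → ZMod p) :=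
    AddSubgroup.closure {c | ∃ u ∈ R S, ∃ u' ∈ R S, c = u * u'}
  have hW : ∀ u ∈ R S, ∀ u' ∈ R S, u * u' ∈ W0 := fun u hu u' hu' =>
    AddSubgroup.subset_closure ⟨u, hu, u', hu', rfl⟩
  have hWt : ∀ g, ∀ c ∈ W0, (fun x => c (g * x)) ∈ W0 := by
    intro g c hc
    induction hc using AddSubgroup.closure_induction with
    | mem c hc =>
      obtain ⟨u, hu, u', hu', rfl⟩ := hc
      exact hW _ (R_tr hS.1.1 hu g) _ (R_tr hS.1.1 hu' g)
    | zero => exact W0.zero_mem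
    | add _ _ _ _ h1 h2 => exact W0.add_mem h1 h2
    | neg _ _ h => exact W0.neg_mem h
  have ma : ∀ w : Hs (ZMod p) ≀ᵣ G, pa w ∈ S ↔ (fun x => (w.left x).a) ∈ R S :=
    fun w => bs_mem hS.1.1 _ _
  have mb : ∀ w : Hs (ZMod p) ≀ᵣ G, pb w ∈ S ↔ (fun x => (w.left x).b) ∈ R S :=
    fun w => bs_mem hS.1.1 _ _
  let E : Subgroup (Hs (ZMod p) ≀ᵣ G) :=
    { carrier := {w | pa w ∈ S ∧ pb w ∈ S ∧ (fun x => (w.left x).c) ∈ W0}
      one_mem' := ⟨by simp, by simp, W0.zero_mem⟩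
      mul_mem' := by
        rintro u v ⟨h1, h2, h3⟩ ⟨k1, k2, k3⟩
        refine ⟨by rw [map_mul]; exact S.mul_mem h1 k1, by rw [map_mul]; exact S.mul_mem h2 k2, ?_⟩
        exact W0.add_mem (W0.add_mem h3 (hWt u.right⁻¹ _ k3))
          (hW _ ((ma _).1 h1) _ (R_tr hS.1.1 ((mb _).1 k2) u.right⁻¹))
      inv_mem' := by
        rintro u ⟨h1, h2, h3⟩
        refine ⟨by rw [map_inv]; exact S.inv_mem h1, by rw [map_inv]; exact S.inv_mem h2, ?_⟩
        exact W0.add_mem (W0.neg_mem (hWt u.right _ h3))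
          (hW _ (R_tr hS.1.1 ((ma _).1 h1) u.right) _ (R_tr hS.1.1 ((mb _).1 h2) u.right)) }
  have mE : ∀ (u u' c : G → ZMod p) (g : G), u ∈ R S → u' ∈ R S → c ∈ W0 → hb u u' c g ∈ E :=
    fun u u' c g h1 h2 h3 => ⟨(ma _).2 h1, (mb _).2 h2, h3⟩
  let φ : E →* S := (pa.comp E.subtype).codRestrict S fun e => e.2.1
  let ψ : E →* S := (pb.comp E.subtype).codRestrict S fun e => e.2.2.1
  have hφ : Surjective φ := fun s =>
    ⟨⟨hb (fun x => toAdd ((s : W p G).left x)) 0 0 (s : W p G).right,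
      mE _ _ _ _ ((mem_iff hS.1.1 _).1 s.2) (R S).zero_mem W0.zero_mem⟩, rfl⟩
  have hψ : Surjective ψ := fun s =>
    ⟨⟨hb 0 (fun x => toAdd ((s : W p G).left x)) 0 (s : W p G).right,
      mE _ _ _ _ (R S).zero_mem ((mem_iff hS.1.1 _).1 s.2) W0.zero_mem⟩, rfl⟩
  have mA : ∀ e : E, e ∈ φ.ker ⊓ ψ.ker ↔ ∃ c, e.1 = hb 0 0 c 1 := by
    intro e
    constructor
    · rintro ⟨h1, h2⟩
      have h1' : pa e.1 = 1 := congrArg Subtype.val h1
      have h2' : pb e.1 = 1 := congrArg Subtype.val h2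
      refine ⟨fun x => (e.1.left x).c, ?_⟩
      ext x
      · exact congrFun (congrArg RegularWreathProduct.left h1') x
      · exact congrFun (congrArg RegularWreathProduct.left h2') x
      · rfl
      · exact (congrArg RegularWreathProduct.right h1' :)
    · rintro ⟨c, hc⟩
      constructor
      · apply Subtype.ext
        show pa e.1 = 1
        rw [hc]; rfl
      · apply Subtype.ext
        show pb e.1 = 1
        rw [hc]; rfl
  have hfr : φ.ker ⊓ ψ.ker ≤ frattini E := by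
    refine le_frat fun M hM => ?_
    by_contra hn
    have h1 : M ⊔ (φ.ker ⊓ ψ.ker) = ⊤ := hM.2 _ (left_lt_sup.2 hn)
    have dec : ∀ e : E, ∃ m ∈ M, ∃ c, e.1 = m.1 * hb 0 0 c 1 := by
      intro e
      have : e ∈ ((M ⊔ (φ.ker ⊓ ψ.ker) : Subgroup E) : Set E) := by rw [h1]; trivial
      rw [Subgroup.mul_normal] at this
      obtain ⟨m, hm, a, ha, rfl⟩ := this
      obtain ⟨c, hc⟩ := (mA a).1 ha
      exact ⟨m, hm, c, by rw [← hc]; rfl⟩
    have key : ∀ c (hc : c ∈ W0),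
        (⟨hb 0 0 c 1, mE _ _ _ _ (R S).zero_mem (R S).zero_mem hc⟩ : E) ∈ M := by
      intro c hc
      induction hc using AddSubgroup.closure_induction with
      | mem c hc =>
        obtain ⟨u, hu, u', hu', rfl⟩ := hc
        obtain ⟨m, hm, c, hc⟩ := dec ⟨hb u 0 0 1, mE _ _ _ _ hu (R S).zero_mem W0.zero_mem⟩
        obtain ⟨m', hm', c', hc'⟩ := dec ⟨hb 0 u' 0 1, mE _ _ _ _ (R S).zero_mem hu' W0.zero_mem⟩
        have e1 : m.1 = hb u 0 0 1 * (hb 0 0 c 1)⁻¹ := eq_mul_inv_of_mul_eq hc.symm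
        have e2 : m'.1 = hb 0 u' 0 1 * (hb 0 0 c' 1)⁻¹ := eq_mul_inv_of_mul_eq hc'.symm
        have := M.mul_mem (M.mul_mem (M.mul_mem hm hm') (M.inv_mem hm)) (M.inv_mem hm')
        have e : m * m' * m⁻¹ * m'⁻¹ = ⟨hb 0 0 (u * u') 1,
            mE _ _ _ _ (R S).zero_mem (R S).zero_mem (hW _ hu _ hu')⟩ := by
          apply Subtype.ext
          show m.1 * m'.1 * m.1⁻¹ * m'.1⁻¹ = hb 0 0 (u * u') 1
          rw [e1, e2]
          ext x <;> simp [hb]
          ring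
        rwa [e] at this
      | zero => exact M.one_mem
      | add c c' _ _ h1 h2 =>
        have := M.mul_mem h1 h2
        refine (congrArg (· ∈ M) (Subtype.ext ?_)).mp this
        show hb 0 0 c 1 * hb 0 0 c' 1 = hb 0 0 (c + c') 1
        ext x <;> simp [hb]
      | neg c _ h =>
        have := M.inv_mem h
        refine (congrArg (· ∈ M) (Subtype.ext ?_)).mp this
        show (hb 0 0 c 1)⁻¹ = hb 0 0 (-c) 1
        ext x <;> simp [hb]
    apply hn
    intro a ha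
    obtain ⟨c, hc⟩ := (mA a).1 ha
    have h3 : c ∈ W0 := by
      have := a.2.2.2
      rw [hc] at this
      exact this
    have := key c h3
    refine (congrArg (· ∈ M) (Subtype.ext ?_)).mp this
    exact hc.symm
  have hE : F E := hF.frat2 φ ψ hφ hψ hfr hS.1.2 hS.1.2
  have := hS.bk hF hE (rightHom.comp E.subtype) (fun g =>
    ⟨⟨hb 0 0 0 g, mE _ _ _ _ (R S).zero_mem (R S).zero_mem W0.zero_mem⟩, rfl⟩)
    (φ.ker ⊓ ψ.ker) (fun e x => (e.1.left x).c) (by
      intro a ha b hb'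
      obtain ⟨c, hc⟩ := (mA a).1 ha
      obtain ⟨c', hc'⟩ := (mA b).1 hb'
      funext x
      simp [hc, hc', hb]) (by
      intro e a ha x
      obtain ⟨c, hc⟩ := (mA a).1 ha
      simp [hc, hb]
      ring) ⟨hb 0 0 (f * f') 1, mE _ _ _ _ (R S).zero_mem (R S).zero_mem (hW _ hf _ hf')⟩
      ((mA _).2 ⟨_, rfl⟩)
  exact this

end Pool.Agent.Lib.GLS
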