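import Pool.Agent.Lib.helper16.GLS3

set_option maxHeartbeats 400000

namespace Pool.Agent.Lib.GLS

open Subgroup Function RegularWreathProduct Multiplicative

variable {F : (G : Type) → [Group G] → Prop} {p : ℕ} {G : Type} [Group G]

/-- the stabilizer of the base functions -/
def Cs (S : Subgroup (W p G)) : Subgroup G where
  carrier := {c | ∀ f ∈ R S, ∀ x, f (x * c) = f x}
  one_mem' := by intro f _ x; rw [mul_one]
  mul_mem' := by
    intro a b ha hb f hf x
    rw [← mul_assoc, hb f hf, ha f hf]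
  inv_mem' := by
    intro a ha f hf x
    rw [← ha f hf (x * a⁻¹), inv_mul_cancel_right]

theorem exhom [hp : Fact p.Prime] {A : Type} [Group A] [Finite A] [Nontrivial A]
    (hA : IsPGroup p A) (hc : ∀ a b : A, a * b = b * a) :
    ∃ l : A →* Multiplicative (ZMod p), ∃ a, l a ≠ 1 := by
  obtain ⟨n, hn0, hn⟩ := hA.nontrivial_iff_card.1 inferInstance
  obtain ⟨m, rfl⟩ : ∃ m, n = m + 1 := ⟨n - 1, by omega⟩
  obtain ⟨K, hK⟩ := Sylow.exists_subgroup_card_pow_prime (G := A) p (n := m)
    (by rw [hn]; exact pow_dvd_pow p (Nat.le_succ m))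
  haveI : K.Normal := ⟨fun a ha g => by rwa [hc g a, mul_inv_cancel_right]⟩
  have h1 : Nat.card (A ⧸ K) = p := by
    have := Subgroup.card_eq_card_quotient_mul_card_subgroup K
    rw [hn, hK, pow_succ, mul_comm] at this
    exact (Nat.eq_of_mul_eq_mul_right (pow_pos hp.out.pos m) this).symm
  let e : A ⧸ K ≃* Multiplicative (ZMod p) := mulEquivOfPrimeCardEq h1 (by simp)
  obtain ⟨q, hq⟩ := e.surjective (ofAdd 1)
  obtain ⟨a, rfl⟩ := QuotientGroup.mk_surjective q
  refine ⟨e.toMonoidHom.comp (QuotientGroup.mk' K), a, ?_⟩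
  intro h
  have : (ofAdd 1 : Multiplicative (ZMod p)) = 1 := hq.symm.trans h
  exact one_ne_zero (ofAdd_eq_one.1 this)

theorem cop {E : Type} [Group E] {b : E} {k n : ℕ} (hk : k.Coprime p) (h1 : b ^ k = 1)
    (h2 : b ^ p ^ n = 1) : b = 1 := by
  have := (pow_gcd_eq_one.2 ⟨h1, h2⟩ : b ^ k.gcd (p ^ n) = 1)
  rwa [(hk.pow_right n).gcd_eq_one, pow_one] at this

variable [Finite G]

theorem IsMx.normal [NeZero p] (hF : SF F) {S : Subgroup (W p G)} (hS : IsMx F S) :
    (Cs S).Normal := by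
  refine ⟨fun c hc h f hf x => ?_⟩
  have := hc _ (hS.rt hF hf h⁻¹) (x * h)
  simpa [mul_assoc] using this

theorem IsMx.coef [NeZero p] (hF : SF F) {S : Subgroup (W p G)} (hS : IsMx F S) {E : Type}
    [Group E] [Finite E] (hE : F E) (π : E →* G) (hπ : Surjective π)
    (hc : ∀ a ∈ π.ker, ∀ b ∈ π.ker, a * b = b * a) (A : Subgroup E) [hA : A.Normal]
    (hle : A ≤ π.ker) (l : A →* Multiplicative (ZMod p)) (a : A) :
    ∃ f ∈ R S, ∀ u, f (π u) = toAdd (l (MulAut.conjNormal u⁻¹ a)) := by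
  classical
  let L : E → ZMod p := fun a => if h : a ∈ A then toAdd (l ⟨a, h⟩) else 0
  have cj : ∀ u v, π u = π v → ∀ a ∈ A, u⁻¹ * a * u = v⁻¹ * a * v := by
    intro u v h a ha
    have h1 : u * v⁻¹ ∈ π.ker := by simp [MonoidHom.mem_ker, h]
    have h2 := hc _ h1 a (hle ha)
    calc u⁻¹ * a * u = u⁻¹ * (a * (u * v⁻¹)) * v := by group
      _ = v⁻¹ * a * v := by rw [← h2]; group
  have hm : ∀ u, ∀ a ∈ A, u⁻¹ * a * u ∈ A := fun u a ha => hA.conj_mem' a ha u
  let σ := surjInv hπ
  have hσ : ∀ x, π (σ x) = x := surjInv_eq hπ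
  have := hS.bk hF hE π hπ A (fun a x => L ((σ x)⁻¹ * a * σ x)) (by
    intro a ha b hb
    funext x
    have e : (σ x)⁻¹ * (a * b) * σ x = ((σ x)⁻¹ * a * σ x) * ((σ x)⁻¹ * b * σ x) := by group
    simp only [L, Pi.add_apply, dif_pos (hm _ _ ha), dif_pos (hm _ _ hb),
      dif_pos (hm _ _ (A.mul_mem ha hb))]
    rw [← toAdd_mul, ← map_mul]
    congr 2
    exact Subtype.ext e) (by
    intro e a ha x
    have := cj (e⁻¹ * σ x) (σ ((π e)⁻¹ * x)) (by simp [hσ]) a ha
    show L _ = L _
    rw [← this]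
    congr 1
    group) a a.2
  refine ⟨_, this, fun u => ?_⟩
  show L _ = _
  rw [cj _ u (hσ _) a a.2]
  simp only [L, dif_pos (hm _ _ a.2)]
  congr 2
  apply Subtype.ext
  simp

theorem IsMx.cen [hp : Fact p.Prime] (hF : SF F) {S : Subgroup (W p G)} (hS : IsMx F S) {E : Type}
    [Group E] [Finite E] (hE : F E) (π : E →* G) (hπ : Surjective π)
    (hc : ∀ a ∈ π.ker, ∀ b ∈ π.ker, a * b = b * a) (hP : IsPGroup p π.ker)
    (z : E) (hz : π z ∈ Cs S) (k : ℕ) (hk : k.Coprime p) (hzk : z ^ k ∈ π.ker) :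
    ∀ (A : Subgroup E), A.Normal → A ≤ π.ker → ∀ a ∈ A, z * a = a * z := by
  intro A
  induction A using WellFoundedLT.induction with
  | _ A ih =>
    intro hA hle a ha
    by_cases h0 : A = ⊥
    · rw [h0, mem_bot] at ha
      simp [ha]
    haveI : Nontrivial A := (Subgroup.nontrivial_iff_ne_bot A).2 h0
    let A' : Subgroup E :=
      { carrier := {a | ∃ h : a ∈ A, ∀ l : A →* Multiplicative (ZMod p), l ⟨a, h⟩ = 1}
        one_mem' := ⟨A.one_mem, fun l => map_one l⟩
        mul_mem' := by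
          rintro a b ⟨ha, h1⟩ ⟨hb, h2⟩
          refine ⟨A.mul_mem ha hb, fun l => ?_⟩
          have := map_mul l ⟨a, ha⟩ ⟨b, hb⟩
          rw [h1, h2, mul_one] at this
          exact this
        inv_mem' := by
          rintro a ⟨ha, h1⟩
          refine ⟨A.inv_mem ha, fun l => ?_⟩
          have := map_inv l ⟨a, ha⟩
          rw [h1, inv_one] at this
          exact this }
    have hle' : A' ≤ A := fun a ha => ha.1
    have hn' : A'.Normal := ⟨by
      rintro a ⟨ha, h1⟩ g
      exact ⟨hA.conj_mem a ha g, fun l => h1 (l.comp (MulAut.conjNormal (H := A) g).toMonoidHom)⟩⟩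
    have hlt : A' < A := by
      obtain ⟨l, a, h⟩ := exhom (hP.to_le hle)
        (fun a b : A => Subtype.ext (hc _ (hle a.2) _ (hle b.2)))
      refine lt_of_le_of_ne hle' fun e => h ?_
      have : (a : E) ∈ A' := by rw [e]; exact a.2
      exact this.2 l
    have hb : a⁻¹ * (z⁻¹ * a * z) ∈ A' := by
      refine ⟨A.mul_mem (A.inv_mem ha) (hA.conj_mem' a ha z), fun l => ?_⟩
      obtain ⟨f, hf, h⟩ := hS.coef hF hE π hπ hc A hle l ⟨a, ha⟩
      have h1 := hz f hf 1
      rw [one_mul, h, ← map_one π, h] at h1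
      have h2 : l (MulAut.conjNormal z⁻¹ ⟨a, ha⟩) = l ⟨a, ha⟩ := by simpa using h1
      have h3 : (⟨a⁻¹ * (z⁻¹ * a * z), A.mul_mem (A.inv_mem ha) (hA.conj_mem' a ha z)⟩ : A) =
          (⟨a, ha⟩ : A)⁻¹ * MulAut.conjNormal z⁻¹ ⟨a, ha⟩ := by
        apply Subtype.ext
        simp
      rw [h3, map_mul, h2, map_inv, inv_mul_cancel]
    set b := a⁻¹ * (z⁻¹ * a * z) with hbd
    have h1 : z * b = b * z := ih A' hlt hn' (hle'.trans hle) b hb
    have h2 : a * z = z * a * b := by rw [hbd]; group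
    have h3 : ∀ j : ℕ, a * z ^ j = z ^ j * a * b ^ j := by
      intro j
      induction j with
      | zero => simp
      | succ j ihj =>
        have : b ^ j * z = z * b ^ j := ((Commute.pow_right (h1 : Commute z b) j).eq).symm
        rw [pow_succ, ← mul_assoc, ihj, mul_assoc, this, ← mul_assoc, mul_assoc _ a z, h2,
          pow_succ' b]
        group
    have h4 : b ^ k = 1 := by
      have := h3 k
      rw [hc _ (hle ha) _ hzk] at this
      exact left_eq_mul.1 this
    obtain ⟨n, hn⟩ := hP ⟨b, hle (hle' hb)⟩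
    have h5 : b = 1 := cop hk h4 (congrArg Subtype.val hn)
    rw [h2, h5, mul_one]

theorem extn [hp : Fact p.Prime] (hF : SF F) (hG : F G) (x : G) (hx : orderOf x = p) (n : ℕ)
    (hn : n ≠ 0) :
    ∃ (E : Type) (_ : Group E) (_ : Finite E) (π : E →* G), F E ∧ Surjective π ∧
      (∀ a ∈ π.ker, ∀ b ∈ π.ker, a * b = b * a) ∧ IsPGroup p π.ker ∧
      ∀ y, π y = x → ∀ a ∈ π.ker, ∀ m k : ℕ, k.Coprime p → y ^ (m * k) = a ^ m → p ^ n ∣ m := by
  haveI : NeZero (p ^ n) := ⟨pow_ne_zero n hp.out.ne_zero⟩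
  have hτ : ∃ τ : G → ZMod p, ∀ y, τ (y * x) = τ y + 1 := by
    have : ∀ y : G, ∃ k : ℤ, x ^ k = (y : G ⧸ zpowers x).out⁻¹ * y := fun y =>
      mem_zpowers_iff.1 (QuotientGroup.eq.1 (QuotientGroup.out_eq' (y : G ⧸ zpowers x)))
    choose k hk using this
    refine ⟨fun y => k y, fun y => ?_⟩
    have h1 : ((y * x : G) : G ⧸ zpowers x) = y := QuotientGroup.eq.2 (by simp)
    have h2 : x ^ k (y * x) = x ^ (k y + 1) := by
      rw [zpow_add_one, hk, hk, h1, mul_assoc]
    rw [zpow_eq_zpow_iff_modEq, hx, ← ZMod.intCast_eq_intCast_iff] at h2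
    simpa using h2
  obtain ⟨τ, hτ⟩ := hτ
  let red : ZMod (p ^ n) →+* ZMod p := ZMod.castHom (dvd_pow_self p hn) (ZMod p)
  let E : Subgroup (W (p ^ n) G) :=
    { carrier := {w | (∀ y, w.left (y * x) = w.left y) ∧
        ∀ y, red (toAdd (w.left y)) = τ y - τ (w.right⁻¹ * y)}
      one_mem' := ⟨fun _ => rfl, by simp⟩
      mul_mem' := by
        rintro u v ⟨h1, h2⟩ ⟨k1, k2⟩
        refine ⟨fun y => ?_, fun y => ?_⟩
        · simp only [mul_left, Pi.mul_apply, h1, ← mul_assoc, k1]
        · simp only [mul_left, Pi.mul_apply, toAdd_mul, map_add, h2, k2, mul_right, mul_inv_rev,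
            mul_assoc]
          ring
      inv_mem' := by
        rintro u ⟨h1, h2⟩
        refine ⟨fun y => ?_, fun y => ?_⟩
        · simp only [inv_left, Pi.inv_apply, ← mul_assoc, h1]
        · simp only [inv_left, Pi.inv_apply, toAdd_inv, map_neg, h2, inv_right, inv_inv,
            inv_mul_cancel_left]
          ring }
  have hπ : Surjective (rightHom.comp E.subtype) := by
    intro g
    refine ⟨⟨bs (fun y => ((τ y - τ (g⁻¹ * y)).val : ZMod (p ^ n))) g, fun y => ?_, fun y => ?_⟩,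
      rfl⟩
    · simp only [bs_left, ← mul_assoc, hτ, add_sub_add_right_eq_sub]
    · simp only [bs_left, bs_right, toAdd_ofAdd, map_natCast, ZMod.natCast_zmod_val]
  obtain ⟨E0, _, _, ι, h1, h2, h3⟩ := hF.supp hG _ E _ rfl hπ
  have hinj : Injective (E.subtype.comp ι) := E.subtype_injective.comp h1
  have pw : ∀ (w : W (p ^ n) G) (y : G), (∀ j : ℕ, w.left ((w.right ^ j)⁻¹ * y) = w.left y) →
      ∀ j : ℕ, (w ^ j).left y = w.left y ^ j := by
    intro w y h j
    induction j with
    | zero => simp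
    | succ j ih =>
      have : (w ^ j).right = w.right ^ j := map_pow rightHom w j
      rw [pow_succ, mul_left, Pi.mul_apply, ih, this, h, pow_succ]
  refine ⟨E0, inferInstance, inferInstance, _, h3, h2, ?_, ?_, ?_⟩
  · intro a ha b hb
    have ha' : (ι a).1.right = 1 := ha
    have hb' : (ι b).1.right = 1 := hb
    apply hinj
    rw [map_mul, map_mul]
    show (ι a).1 * (ι b).1 = (ι b).1 * (ι a).1
    generalize (ι a).1 = u at ha' ⊢
    generalize (ι b).1 = v at hb' ⊢
    ext y
    · simp only [mul_left, Pi.mul_apply, ha', hb', inv_one, one_mul]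
      rw [mul_comm]
    · simp [ha', hb']
  · intro a
    have ha' : (ι a).1.right = 1 := a.2
    refine ⟨n, Subtype.ext (hinj ?_)⟩
    rw [Subgroup.coe_pow, map_pow, Subgroup.coe_one, map_one]
    ext y
    · rw [pw _ y (by intro j; simp [ha'])]
      simp
    · have : ((E.subtype.comp ι) a ^ p ^ n).right = ((E.subtype.comp ι) a).right ^ p ^ n :=
        map_pow rightHom _ _
      rw [this]
      simp [ha']
  · intro y hy a ha m k hk h
    have ha' : (ι a).1.right = 1 := ha
    have hy' : (ι y).1.right = x := hy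
    have h4 := congrArg (fun e => toAdd (((E.subtype.comp ι) e).left 1)) h
    simp only [map_pow] at h4
    rw [pw _ 1 (by
      intro j
      show (ι y).1.left (((ι y).1.right ^ j)⁻¹ * 1) = (ι y).1.left 1
      rw [hy', mul_one]
      induction j with
      | zero => simp
      | succ j ih => rw [← (ι y).2.1, pow_succ', mul_inv_rev, inv_mul_cancel_right, ih]),
      pw _ 1 (by intro j; simp [ha'])] at h4
    simp only [toAdd_pow, nsmul_eq_mul, Nat.cast_mul] at h4
    set s := toAdd (((E.subtype.comp ι) y).left 1) with hs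
    set t := toAdd (((E.subtype.comp ι) a).left 1) with ht
    have hs1 : red s = 1 := by
      have := (ι y).2.2 1
      rw [hy', mul_one, ← inv_mul_cancel x, hτ, inv_mul_cancel] at this
      exact this.trans (by simp)
    have ht1 : red t = 0 := by
      have := (ι a).2.2 1
      rw [ha'] at this
      exact this.trans (by simp)
    have hu : IsUnit ((k : ZMod (p ^ n)) * s - t) := by
      rw [← ZMod.natCast_zmod_val ((k : ZMod (p ^ n)) * s - t), ZMod.isUnit_iff_coprime]
      apply Nat.Coprime.pow_right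
      rw [Nat.coprime_comm, hp.out.coprime_iff_not_dvd, ← ZMod.natCast_eq_zero_iff,
        ← map_natCast red, ZMod.natCast_zmod_val, map_sub, map_mul, hs1, ht1, map_natCast,
        mul_one, sub_zero, ZMod.natCast_eq_zero_iff, ← hp.out.coprime_iff_not_dvd]
      exact hk.symm
    rw [← ZMod.natCast_eq_zero_iff, ← hu.mul_left_eq_zero, mul_sub, ← mul_assoc, h4, sub_self]

end Pool.Agent.Lib.GLS
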