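import Pool.Agent.Lib.helper16.GLS4

set_option maxHeartbeats 400000

namespace Pool.Agent.Lib.GLS

open Subgroup Function RegularWreathProduct Multiplicative

variable {F : (G : Type) → [Group G] → Prop} {p : ℕ} {G : Type} [Group G]

/-- all elements have order prime to `p` -/
def Pp (p : ℕ) (K : Subgroup G) : Prop := ∀ g ∈ K, ∃ k : ℕ, k.Coprime p ∧ g ^ k = 1

variable [Finite G] [hp : Fact p.Prime]

theorem exx {N : Subgroup G} (h : ¬ Pp p N) : ∃ x ∈ N, orderOf x = p := by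
  unfold Pp at h
  push Not at h
  obtain ⟨g, hg, h⟩ := h
  have : p ∣ orderOf g := by
    by_contra hc
    exact h _ ((hp.out.coprime_iff_not_dvd.2 hc).symm) (pow_orderOf_eq_one g)
  exact ⟨_, N.pow_mem hg _, orderOf_pow_orderOf_div (orderOf_pos g).ne' this⟩

theorem IsMx.pC (hF : SF F) (hG : F G) (hO : ∀ N : Subgroup G, N.Normal → Pp p N → N = ⊥)
    {S : Subgroup (W p G)} (hS : IsMx F S) : IsPGroup p (Cs S) := by
  have hC := hS.normal hF
  let D : Subgroup G := closure {d | d ∈ Cs S ∧ ∃ k : ℕ, k.Coprime p ∧ d ^ k = 1}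
  have hD : D.Normal := ⟨by
    intro d hd g
    induction hd using closure_induction with
    | mem d hd =>
      obtain ⟨h1, k, h2, h3⟩ := hd
      exact subset_closure ⟨hC.conj_mem _ h1 g, k, h2, by rw [conj_pow, h3]; simp⟩
    | one => simp
    | mul a b _ _ h1 h2 =>
      have := D.mul_mem h1 h2
      rwa [conj_mul] at this
    | inv a _ h =>
      have := D.inv_mem h
      rwa [conj_inv] at this⟩
  have h0 : D = ⊥ := by
    by_contra hne
    obtain ⟨x, hxD, hx⟩ := exx (mt (hO D hD) hne)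
    obtain ⟨E, _, _, π, hE, hπ, hc, hP, key⟩ := extn hF hG x hx (Nat.card G) Nat.card_pos.ne'
    let Z : Subgroup E := centralizer (π.ker : Set E)
    let T := MonoidHom.transferCenterPow Z
    let K : Subgroup Z :=
      { carrier := {e | ∃ k : ℕ, k.Coprime p ∧ ∃ a : Z, a.1 ∈ π.ker ∧ T e ^ k = T a}
        one_mem' := ⟨1, by simp, 1, π.ker.one_mem, by simp⟩
        mul_mem' := by
          rintro u v ⟨k, h1, a, ha, h2⟩ ⟨l, k1, b, hb, k2⟩
          refine ⟨k * l, h1.mul_left k1, a ^ l * b ^ k,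
            π.ker.mul_mem (π.ker.pow_mem ha l) (π.ker.pow_mem hb k), ?_⟩
          have hcm : Commute (T u) (T v) := Subtype.ext ((T u).2.comm _).eq
          rw [map_mul, map_mul, map_pow, map_pow, ← h2, ← k2, hcm.mul_pow, ← pow_mul, ← pow_mul,
            mul_comm l k]
        inv_mem' := by
          rintro u ⟨k, h1, a, ha, h2⟩
          exact ⟨k, h1, a⁻¹, π.ker.inv_mem ha, by rw [map_inv, map_inv, ← h2, inv_pow]⟩ }
    have hle : D ≤ K.map (π.comp Z.subtype) := by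
      rw [closure_le]
      rintro d ⟨h1, k, h2, h3⟩
      obtain ⟨z, rfl⟩ := hπ d
      have h4 : z ^ k ∈ π.ker := by rw [MonoidHom.mem_ker, map_pow, h3]
      have hz : z ∈ Z := fun a ha =>
        (hS.cen hF hE π hπ hc hP z h1 k h2 h4 π.ker inferInstance le_rfl a ha).symm
      exact ⟨⟨z, hz⟩, ⟨k, h2, ⟨z, hz⟩ ^ k, h4, by rw [map_pow]⟩, rfl⟩
    obtain ⟨y, ⟨k, h1, a, ha, h2⟩, hy⟩ := hle hxD
    have h3 := congrArg (fun t : center Z => ((t : Z) : E)) h2
    simp only [T, Subgroup.coe_pow, MonoidHom.transferCenterPow_apply, ← pow_mul] at h3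
    have h4 := key y hy a ha _ k h1 h3
    have h5 : (π.comp Z.subtype).ker ≤ center Z := by
      intro u hu
      rw [mem_center_iff]
      intro g
      exact Subtype.ext (g.2 u hu).symm
    have h6 := index_dvd_of_le h5
    rw [index_ker] at h6
    have h7 := Nat.le_of_dvd Nat.card_pos ((h4.trans h6).trans (card_subgroup_dvd_card _))
    exact absurd (Nat.lt_pow_self hp.out.one_lt) (not_lt.2 h7)
  rintro ⟨c, hc⟩
  obtain ⟨n, k, h1, h2⟩ := Nat.exists_eq_pow_mul_and_not_dvd (orderOf_pos c).ne' p hp.out.ne_one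
  have : c ^ p ^ n ∈ D := subset_closure ⟨(Cs S).pow_mem hc _, k,
    (hp.out.coprime_iff_not_dvd.2 h1).symm, by rw [← pow_mul, ← h2, pow_orderOf_eq_one]⟩
  rw [h0, mem_bot] at this
  exact ⟨n, Subtype.ext this⟩

theorem IsMx.nz (hF : SF F) (hG : F G) (x : G) (hx : orderOf x = p)
    {S : Subgroup (W p G)} (hS : IsMx F S) : ∃ f ∈ R S, f 1 ≠ 0 := by
  obtain ⟨E, _, _, π, hE, hπ, hc, hP, key⟩ := extn hF hG x hx 2 two_ne_zero
  have hne : π.ker ≠ ⊥ := by
    intro h
    obtain ⟨y, hy⟩ := hπ x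
    have h1 : y ^ p ∈ π.ker := by rw [MonoidHom.mem_ker, map_pow, hy, ← hx, pow_orderOf_eq_one]
    rw [h, mem_bot] at h1
    have := key y hy 1 π.ker.one_mem p 1 (by simp) (by simp [h1])
    have h2 := Nat.le_of_dvd hp.out.pos this
    have := hp.out.one_lt
    nlinarith
  haveI : Nontrivial π.ker := (Subgroup.nontrivial_iff_ne_bot _).2 hne
  obtain ⟨l, a, h⟩ := exhom hP (fun a b : π.ker => Subtype.ext (hc _ a.2 _ b.2))
  obtain ⟨f, hf, h1⟩ := hS.coef hF hE π hπ hc π.ker le_rfl l a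
  refine ⟨f, hf, ?_⟩
  rw [← map_one π, h1]
  simpa using h

theorem IsMx.sw (hF : SF F) {S : Subgroup (W p G)} (hS : IsMx F S) (h0 : ∃ f ∈ R S, f 1 ≠ 0) :
    ∃ h ∈ R S, h 1 ≠ 0 ∧ ∀ y, y ∉ Cs S → h y = 0 := by
  classical
  have key : ∀ s : Finset G, ∃ h ∈ R S, h 1 ≠ 0 ∧ ∀ y ∈ s, y ∉ Cs S → h y = 0 := by
    intro s
    induction s using Finset.induction_on with
    | empty =>
      obtain ⟨f, h1, h2⟩ := h0
      exact ⟨f, h1, h2, by simp⟩
    | insert y s _ ih =>
      obtain ⟨h, h1, h2, h3⟩ := ih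
      by_cases hy : y ∈ Cs S
      · refine ⟨h, h1, h2, fun z hz hz' => ?_⟩
        rcases Finset.mem_insert.1 hz with rfl | hz
        · exact absurd hy hz'
        · exact h3 z hz hz'
      · have : ∃ f ∈ R S, ∃ x, f (x * y) ≠ f x := by
          by_contra hc
          push Not at hc
          exact hy hc
        obtain ⟨f, hf, x, hx⟩ := this
        refine ⟨h * (fun z => f (x * z)) - (f (x * y)).val • h, (R S).sub_mem
          (hS.mul hF h1 (R_tr hS.1.1 hf x)) ((R S).nsmul_mem h1 _), ?_, fun z hz hz' => ?_⟩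
        · simp only [Pi.sub_apply, Pi.mul_apply, nsmul_eq_mul, Pi.natCast_apply,
            ZMod.natCast_zmod_val, mul_one]
          rw [mul_comm (f (x * y)), ← mul_sub]
          exact mul_ne_zero h2 (sub_ne_zero.2 hx.symm)
        · simp only [Pi.sub_apply, Pi.mul_apply, nsmul_eq_mul, Pi.natCast_apply,
            ZMod.natCast_zmod_val]
          rcases Finset.mem_insert.1 hz with rfl | hz
          · ring
          · simp [h3 z hz hz']
  haveI := Fintype.ofFinite G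
  obtain ⟨h, h1, h2, h3⟩ := key Finset.univ
  exact ⟨h, h1, h2, fun y => h3 y (Finset.mem_univ y)⟩

omit hp in
theorem minN {K : Subgroup G} (hK : K.Normal) (h : K ≠ ⊥) :
    ∃ N : Subgroup G, N.Normal ∧ N ≤ K ∧ N ≠ ⊥ ∧
      ∀ N' : Subgroup G, N'.Normal → N' ≤ N → N' = ⊥ ∨ N' = N := by
  obtain ⟨N, ⟨h1, h2, h3⟩, hm⟩ := (wellFounded_lt (α := Subgroup G)).has_min
    {N | N.Normal ∧ N ≤ K ∧ N ≠ ⊥} ⟨K, hK, le_rfl, h⟩
  refine ⟨N, h1, h2, h3, fun N' k1 k2 => ?_⟩
  by_contra hc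
  push Not at hc
  exact hm N' ⟨k1, k2.trans h2, hc.1⟩ (lt_of_le_of_ne k2 hc.2)

theorem fixn {T N : Subgroup G} (hT : IsPGroup p T) [N.Normal] (hN : IsPGroup p N) (h : N ≠ ⊥) :
    ∃ n ∈ N, n ≠ 1 ∧ n ^ p = 1 ∧ ∀ t ∈ T, t * n = n * t := by
  letI : MulAction T N := MulAction.compHom N ((MulAut.conjNormal (H := N)).comp T.subtype)
  haveI : Nontrivial N := (Subgroup.nontrivial_iff_ne_bot _).2 h
  obtain ⟨k, hk0, hk⟩ := hN.nontrivial_iff_card.1 inferInstance
  obtain ⟨b, hb, h1⟩ := hT.exists_fixed_point_of_prime_dvd_card_of_fixed_point N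
    (by rw [hk]; exact dvd_pow_self p hk0.ne') (a := 1)
    (fun t => map_one (MulAut.conjNormal (H := N) t.1))
  have h2 : ∀ t ∈ T, t * b = b * t := fun t ht =>
    mul_inv_eq_iff_eq_mul.1 (congrArg Subtype.val (hb ⟨t, ht⟩))
  have h3 : ¬ Pp p (zpowers (b : G)) := by
    intro hc
    obtain ⟨j, h4, h5⟩ := hc b (mem_zpowers _)
    obtain ⟨m, hm⟩ := hN b
    exact h1 (Subtype.ext (cop h4 h5 (congrArg Subtype.val hm))).symm
  obtain ⟨x, ⟨j, rfl⟩, hx⟩ := exx h3
  refine ⟨_, N.zpow_mem b.2 j, ?_, by rw [← hx]; exact pow_orderOf_eq_one _, fun t ht =>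
    (Commute.zpow_right (h2 t ht : Commute t b) j).eq⟩
  intro hc
  have hc' : (b : G) ^ j = 1 := hc
  simp only [hc', orderOf_one] at hx
  exact hp.out.ne_one hx.symm

end Pool.Agent.Lib.GLS
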