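import Pool.Agent.Lib.helper16.GLS5

set_option maxHeartbeats 400000

namespace Pool.Agent.Lib.GLS

open Subgroup Function RegularWreathProduct Multiplicative

variable {F : (G : Type) → [Group G] → Prop} {p : ℕ} {G : Type} [Group G]

theorem inf_normal {E : Type} [Group E] {M N : Subgroup E} [hN : N.Normal] (h : M ⊔ N = ⊤)
    (hc : ∀ a ∈ N, ∀ b ∈ N, a * b = b * a) : (N ⊓ M).Normal := by
  refine ⟨fun u hu g => ⟨hN.conj_mem _ hu.1 g, ?_⟩⟩
  have : g ∈ ((M ⊔ N : Subgroup E) : Set E) := by rw [h]; trivial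
  rw [Subgroup.mul_normal] at this
  obtain ⟨m, hm, a, ha, rfl⟩ := this
  have e : m * a * u * (m * a)⁻¹ = m * u * m⁻¹ := by
    rw [mul_assoc m, hc a ha u hu.1]; group
  show m * a * u * (m * a)⁻¹ ∈ M
  rw [e]
  exact M.mul_mem (M.mul_mem hm hu.2) (M.inv_mem hm)

theorem SF.compl (hF : SF F) {E : Type} [Group E] [Finite E] {M N : Subgroup E} [N.Normal]
    (hM : IsCoatom M) (hn : ¬ N ≤ M) (h : N ⊓ M = ⊥) (hq : F (E ⧸ N)) : F M := by
  have h1 := coatom_onto (QuotientGroup.mk' N) (QuotientGroup.mk'_surjective N) hM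
    (by rw [QuotientGroup.ker_mk']) hn
  have h2 : Injective ((QuotientGroup.mk' N).comp M.subtype) := by
    rw [injective_iff_map_eq_one]
    intro a ha
    have : (a : E) ∈ N ⊓ M := ⟨(QuotientGroup.eq_one_iff _).1 ha, a.2⟩
    rw [h, mem_bot] at this
    exact Subtype.ext this
  exact hF.iso _ _ ⟨(MulEquiv.ofBijective _ ⟨h2, h1⟩).symm⟩ hq

variable [Finite G] [hp : Fact p.Prime]

theorem split (hF : SF F) {S : Subgroup (W p G)} (hS : IsMx F S) (hC : IsPGroup p (Cs S))
    (h0 : ∃ f ∈ R S, f 1 ≠ 0) {E : Type} [Group E] [Finite E] (π : E →* G) (hπ : Surjective π)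
    (hP : IsPGroup p π.ker) {N M : Subgroup E} [hN : N.Normal] (hle : N ≤ π.ker) (hne : N ≠ ⊥)
    (hmin : ∀ N' : Subgroup E, N'.Normal → N' ≤ N → N' = ⊥ ∨ N' = N)
    (hM : IsCoatom M) (hn : ¬ N ≤ M) (hq : F (E ⧸ N)) : F E := by
  classical
  let T : Subgroup E := (Cs S).comap π
  obtain ⟨n, hnN, hn1, hnp, hnT⟩ := fixn (hC.comap_of_ker_isPGroup π hP) (hP.to_le hle) hne
  have hkT : π.ker ≤ T := fun a ha => by
    show π a ∈ Cs S
    rw [(ha : π a = 1)]; exact (Cs S).one_mem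
  have hcen : ∀ a ∈ N, ∀ b ∈ π.ker, b * a = a * b := by
    rcases hmin (N ⊓ centralizer (π.ker : Set E)) inferInstance inf_le_left with h | h
    · have : n ∈ N ⊓ centralizer (π.ker : Set E) := ⟨hnN, fun b hb => hnT b (hkT hb)⟩
      rw [h] at this
      exact absurd this hn1
    · intro a ha b hb
      rw [← h] at ha
      exact ha.2 b hb
  have hc : ∀ a ∈ N, ∀ b ∈ N, a * b = b * a := fun a ha b hb => hcen b hb a (hle ha)
  have hNM : N ⊓ M = ⊥ := by
    rcases hmin _ (inf_normal (hM.2 _ (left_lt_sup.2 hn)) hc) inf_le_left with h | h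
    · exact h
    · exact absurd (h ▸ inf_le_right) hn
  have hFM := hF.compl hM hn hNM hq
  letI : CommGroup N :=
    { (inferInstance : Group N) with mul_comm := fun a b => Subtype.ext (hc _ a.2 _ b.2) }
  haveI := Fintype.ofFinite (E ⧸ T)
  let v : E ⧸ T → N := fun q => MulAut.conjNormal q.out ⟨n, hnN⟩
  have hv : ∀ e : E, v (e : E ⧸ T) = MulAut.conjNormal e ⟨n, hnN⟩ := by
    intro e
    obtain ⟨c, h⟩ := QuotientGroup.mk_out_eq_mul T e
    apply Subtype.ext
    simp only [v, h, MulAut.conjNormal_apply]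
    rw [mul_assoc e, hnT c c.2]
    group
  have hvp : ∀ q, v q ^ p = 1 := by
    intro q
    rw [← map_pow, show (⟨n, hnN⟩ : N) ^ p = 1 from Subtype.ext hnp, map_one]
  have hf : ∀ f ∈ R S, ∀ e : E, f (π (e : E ⧸ T).out) = f (π e) := by
    intro f hf e
    obtain ⟨c, h⟩ := QuotientGroup.mk_out_eq_mul T e
    rw [h, map_mul]
    exact c.2 f hf _
  let Ψ : (G → ZMod p) → N := fun f => ∏ q : E ⧸ T, v q ^ (f (π q.out)).val
  have hadd : ∀ f f', Ψ (f + f') = Ψ f * Ψ f' := by
    intro f f'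
    simp only [Ψ]
    rw [← Finset.prod_mul_distrib]
    refine Finset.prod_congr rfl fun q _ => ?_
    rw [Pi.add_apply, ZMod.val_add, ← pow_add, ← pow_eq_pow_mod _ (hvp q)]
  have heq : ∀ f ∈ R S, ∀ m : E,
      Ψ (fun x => f ((π m)⁻¹ * x)) = MulAut.conjNormal m (Ψ f) := by
    intro f hfR m
    simp only [Ψ]
    rw [map_prod, ← Equiv.prod_comp (MulAction.toPerm m)]
    refine Finset.prod_congr rfl fun q _ => ?_
    rw [MulAction.toPerm_apply, ← MulAction.Quotient.mk_smul_out, smul_eq_mul, hv,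
      hf _ (R_tr hS.1.1 hfR (π m)⁻¹), map_pow, map_mul π, inv_mul_cancel_left, map_mul]
    rfl
  have hz : Ψ 0 = 1 := by simp [Ψ]
  let D : Subgroup (M × S) :=
    { carrier := {d | π d.1 = (d.2 : W p G).right}
      one_mem' := map_one π
      mul_mem' := by
        intro a b ha hb
        simp only [Set.mem_setOf_eq] at ha hb ⊢
        simp [ha, hb]
      inv_mem' := by
        intro a ha
        simp only [Set.mem_setOf_eq] at ha ⊢
        simp [ha] }
  have hD : F D := hF.sub D (fun m => ⟨⟨inl (π m), hS.1.1 _⟩, rfl⟩)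
    (fun s => coatom_onto π hπ hM hle hn (s : W p G).right) hFM hS.1.2
  let ψ : D →* E := MonoidHom.mk'
    (fun d => (Ψ (fun x => toAdd ((d.1.2 : W p G).left x)) : E) * d.1.1) (by
      intro a b
      have ha : π a.1.1 = (a.1.2 : W p G).right := a.2
      have e : (fun x => toAdd (((a * b).1.2 : W p G).left x)) =
          (fun x => toAdd ((a.1.2 : W p G).left x)) +
            fun x => toAdd ((b.1.2 : W p G).left ((π a.1.1)⁻¹ * x)) := by
        funext x
        simp [ha]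
      rw [e, hadd, heq _ ((mem_iff hS.1.1 _).1 b.1.2.2)]
      simp [mul_assoc])
  refine hF.img ψ ?_ hD
  rw [← MonoidHom.range_eq_top]
  refine hM.2 _ (lt_of_le_of_ne ?_ ?_)
  · intro m hm
    refine ⟨⟨(⟨m, hm⟩, ⟨inl (π m), hS.1.1 _⟩), rfl⟩, ?_⟩
    show (Ψ 0 : E) * m = m
    rw [hz]; simp
  · intro he
    obtain ⟨h, h1, h2, h3⟩ := hS.sw hF h0
    have h4 : ψ ⟨(1, ⟨bs h 1, h1⟩), map_one π⟩ ∈ M := he.ge ⟨_, rfl⟩
    have h4' : (Ψ h : E) * 1 ∈ M := h4
    have h5 : (Ψ h : E) ∈ N ⊓ M := ⟨(Ψ h).2, by rwa [mul_one] at h4'⟩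
    rw [hNM, mem_bot] at h5
    have h6 : Ψ h = v ((1 : E) : E ⧸ T) ^ (h 1).val := by
      simp only [Ψ]
      rw [Finset.prod_eq_single ((1 : E) : E ⧸ T), hf h h1, map_one]
      · intro q _ hq1
        rw [h3, ZMod.val_zero, pow_zero]
        intro hq2
        apply hq1
        rw [← QuotientGroup.out_eq' q, eq_comm, QuotientGroup.eq]
        rw [inv_one, one_mul]
        exact hq2
      · simp
    rw [h6, hv] at h5
    have h7 : n ^ (h 1).val = 1 := by simpa using h5
    refine hn1 (cop (p := p) (n := 1) ?_ h7 (by rwa [pow_one]))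
    rw [Nat.coprime_comm, hp.out.coprime_iff_not_dvd, ← ZMod.natCast_eq_zero_iff,
      ZMod.natCast_zmod_val]
    exact h2

/-- core of the Gaschütz–Lubeseder–Schmid theorem -/
theorem SF.full (hF : SF F) (hG : F G) [Nontrivial G]
    (hO : ∀ N : Subgroup G, N.Normal → Pp p N → N = ⊥) :
    ∀ (n : ℕ) (E : Type) [Group E] [Finite E] (π : E →* G), Nat.card E = n → Surjective π →
      IsPGroup p π.ker → F E := by
  obtain ⟨S, hS⟩ := exMx (p := p) hF hG
  have hC := hS.pC hF hG hO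
  obtain ⟨x, -, hx⟩ := exx (mt (hO ⊤ inferInstance) top_ne_bot)
  have h0 := hS.nz hF hG x hx
  intro n
  induction n using Nat.strong_induction_on with
  | _ n ih =>
    intro E _ _ π hn hπ hP
    by_cases hk : π.ker = ⊥
    · exact hF.frat π hπ (hk ▸ bot_le) hG
    obtain ⟨N, hN, hle, hne, hmin⟩ := minN (inferInstance : π.ker.Normal) hk
    have hq : F (E ⧸ N) := by
      refine ih _ (hn ▸ lt_card_quo hne) (E ⧸ N) (QuotientGroup.lift N π hle) rfl ?_ ?_
      · intro g
        obtain ⟨e, rfl⟩ := hπ g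
        exact ⟨e, rfl⟩
      · rw [QuotientGroup.ker_lift]
        exact hP.map _
    by_cases h : N ≤ frattini E
    · exact hF.frat (QuotientGroup.mk' N) (QuotientGroup.mk'_surjective N)
        (by rwa [QuotientGroup.ker_mk']) hq
    · have : ∃ M : Subgroup E, IsCoatom M ∧ ¬ N ≤ M := by
        by_contra hc
        push Not at hc
        exact h (le_frat hc)
      obtain ⟨M, hM, hn'⟩ := this
      exact split hF hS hC h0 π hπ hP hle hne hmin hM hn' hq

end Pool.Agent.Lib.GLS
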