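import Pool.Agent.Lib.helper16.GLS6

set_option maxHeartbeats 400000

namespace Pool.Agent.Lib.GLS

open Subgroup Function Multiplicative

/-- irreducible action by automorphisms -/
structure Irr {B U : Type} [Group B] [Group U] (a : B → U → U) : Prop where
  hom : ∀ b u v, a b (u * v) = a b u * a b v
  mul : ∀ b c u, a (b * c) u = a b (a c u)
  one : ∀ u, a 1 u = u
  irr : ∀ S : Subgroup U, (∀ b, ∀ u ∈ S, a b u ∈ S) → S = ⊥ ∨ S = ⊤

theorem exmod {p : ℕ} [hp : Fact p.Prime] {B : Type} [Group B] [Finite B] {z : B} (hz : z ≠ 1)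
    {k : ℕ} (hk : k.Coprime p) (hzk : z ^ k = 1) :
    ∃ (U : Type) (_ : Group U) (_ : Finite U) (a : B → U → U), IsPGroup p U ∧ Irr a ∧
      ∃ u, a z u ≠ u := by
  classical
  let A := MonoidAlgebra (ZMod p) B
  haveI : Finite (B →₀ ZMod p) := Finite.of_injective _ DFunLike.coe_injective
  haveI : Finite A := Finite.of_injective _ (MonoidAlgebra.coeff_injective (R := ZMod p) (M := B))
  haveI : CharP A p := charP_of_injective_algebraMap' (ZMod p) p
  haveI : IsArtinianRing A := isArtinian_of_finite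
  let o := MonoidAlgebra.of (ZMod p) B
  have hJ : o z - 1 ∉ Ideal.jacobson (⊥ : Ideal A) := by
    intro h
    obtain ⟨n, hn⟩ := IsArtinianRing.isNilpotent_jacobson_bot (R := A)
    have h1 : (o z - 1) ^ n = 0 := by
      have := Ideal.pow_mem_pow h n
      rw [hn] at this
      exact this
    have h2 : (o z - 1) ^ p ^ n = 0 :=
      pow_eq_zero_of_le (Nat.lt_pow_self hp.out.one_lt).le h1
    rw [sub_pow_char_pow_of_commute _ _ (Commute.one_right _), one_pow, ← map_pow, sub_eq_zero,
      ← map_one o] at h2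
    exact hz (cop hk hzk (MonoidAlgebra.of_injective h2))
  have : ∃ I : Ideal A, I.IsMaximal ∧ o z - 1 ∉ I := by
    by_contra hc
    push Not at hc
    exact hJ (Ideal.mem_sInf.2 fun {I} hI => hc I hI.2)
  obtain ⟨I, hI, hzI⟩ := this
  haveI : IsSimpleModule A (A ⧸ I) := isSimpleModule_iff_isCoatom.2 hI.out
  haveI : Finite (A ⧸ I) := Finite.of_surjective _ (Submodule.Quotient.mk_surjective I)
  refine ⟨Multiplicative (A ⧸ I), inferInstance, inferInstance,
    fun b u => ofAdd (o b • toAdd u), fun u => ⟨1, ?_⟩, ⟨?_, ?_, ?_, ?_⟩,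
    ofAdd (Submodule.Quotient.mk 1), ?_⟩
  · apply toAdd.injective
    rw [pow_one, toAdd_pow, ← Nat.cast_smul_eq_nsmul A, CharP.cast_eq_zero, zero_smul, toAdd_one]
  · intro b u v
    simp [smul_add]
  · intro b c u
    simp only [map_mul, mul_smul, toAdd_ofAdd]
  · intro u
    simp only [map_one, one_smul, ofAdd_toAdd]
  · intro S hS
    let T : Submodule A (A ⧸ I) :=
      { carrier := {u | ofAdd u ∈ S}
        zero_mem' := S.one_mem
        add_mem' := fun h1 h2 => S.mul_mem h1 h2
        smul_mem' := by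
          intro r u hu
          induction r using MonoidAlgebra.induction_on with
          | of b => exact hS b _ hu
          | add f g h1 h2 =>
            rw [add_smul]
            exact S.mul_mem h1 h2
          | smul c f h =>
            rw [← ZMod.natCast_zmod_val c, Nat.cast_smul_eq_nsmul, smul_assoc]
            exact S.pow_mem h _ }
    rcases eq_bot_or_eq_top T with h | h
    · left
      rw [eq_bot_iff]
      intro u hu
      have : toAdd u ∈ T := hu
      rw [h] at this
      exact this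
    · right
      rw [eq_top_iff]
      intro u _
      have : toAdd u ∈ T := h ▸ Submodule.mem_top
      exact this
  · intro h
    apply hzI
    have := ofAdd.injective h
    rw [toAdd_ofAdd, ← Submodule.Quotient.mk_smul, Submodule.Quotient.eq, smul_eq_mul,
      mul_one] at this
    exact this

variable {F : (G : Type) → [Group G] → Prop}

/-- minimal quotients outside a class -/
theorem exminq (F : (G : Type) → [Group G] → Prop) :
    ∀ (n : ℕ) (H : Type) [Group H] [Finite H], Nat.card H = n → ¬ F H →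
      ∃ (B : Type) (_ : Group B) (_ : Finite B) (φ : H →* B), Surjective φ ∧ ¬ F B ∧
        ∀ (N : Subgroup B) [N.Normal], N ≠ ⊥ → F (B ⧸ N) := by
  intro n
  induction n using Nat.strong_induction_on with
  | _ n ih =>
    intro H _ _ hn hH
    by_cases h : ∀ (N : Subgroup H) [N.Normal], N ≠ ⊥ → F (H ⧸ N)
    · exact ⟨H, inferInstance, inferInstance, MonoidHom.id H, surjective_id, hH, h⟩
    · push Not at h
      obtain ⟨N, _, h1, h2⟩ := h
      obtain ⟨B, _, _, φ, k1, k2, k3⟩ := ih _ (hn ▸ lt_card_quo h1) (H ⧸ N) rfl h2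
      exact ⟨B, inferInstance, inferInstance, φ.comp (QuotientGroup.mk' N),
        k1.comp (QuotientGroup.mk'_surjective N), k2, k3⟩

/-- quotient by the largest normal subgroup of order prime to `p` -/
theorem exO (p : ℕ) : ∀ (n : ℕ) (G : Type) [Group G] [Finite G], Nat.card G = n →
      ∃ (X : Type) (_ : Group X) (_ : Finite X) (σ : G →* X), Surjective σ ∧ Pp p σ.ker ∧
        ∀ N : Subgroup X, N.Normal → Pp p N → N = ⊥ := by
  intro n
  induction n using Nat.strong_induction_on with
  | _ n ih =>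
    intro G _ _ hn
    by_cases h : ∀ N : Subgroup G, N.Normal → Pp p N → N = ⊥
    · refine ⟨G, inferInstance, inferInstance, MonoidHom.id G, surjective_id, fun g hg => ?_, h⟩
      exact ⟨1, by simp, by simpa using hg⟩
    · push Not at h
      obtain ⟨N, _, h1, h2⟩ := h
      obtain ⟨X, _, _, σ, k1, k2, k3⟩ := ih _ (hn ▸ lt_card_quo h2) (G ⧸ N) rfl
      refine ⟨X, inferInstance, inferInstance, σ.comp (QuotientGroup.mk' N),
        k1.comp (QuotientGroup.mk'_surjective N), fun g hg => ?_, k3⟩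
      obtain ⟨k, h3, h4⟩ := k2 (g : G ⧸ N) hg
      obtain ⟨l, h5, h6⟩ := h1 (g ^ k) ((QuotientGroup.eq_one_iff _).1 h4)
      exact ⟨k * l, h3.mul_left h5, by rw [pow_mul, h6]⟩

/-- the module attached to a minimal group outside a saturated formation -/
theorem SF.data (hF : SF F) (h1 : F Unit) {B : Type} [Group B] [Finite B] (hB : ¬ F B)
    (hq : ∀ (N : Subgroup B) [N.Normal], N ≠ ⊥ → F (B ⧸ N)) :
    ∃ p : ℕ, p.Prime ∧ (∀ K : Subgroup B, K.Normal → Pp p K → K = ⊥) ∧
      ∃ (U : Type) (_ : Group U) (_ : Finite U) (a : B → U → U) (j : U →* B) (ρ : B →* B),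
        IsPGroup p U ∧ Irr a ∧ Nontrivial U ∧ (∀ b u, ρ b * j u * (ρ b)⁻¹ = j (a b u)) ∧
        (∀ b, ∃ u c, b = j u * ρ c) ∧ ∀ b, (∀ u, a b u = u) → ρ b = 1 := by
  haveI : Nontrivial B := by
    by_contra hc
    rw [not_nontrivial_iff_subsingleton] at hc
    exact hB (hF.img (1 : Unit →* B) (fun b => ⟨1, Subsingleton.elim _ _⟩) h1)
  obtain ⟨N, hN, -, hne, hmin⟩ := minN (inferInstance : (⊤ : Subgroup B).Normal) top_ne_bot
  have huq : ∀ K : Subgroup B, K.Normal → ¬ N ≤ K → K = ⊥ := by
    intro K hK hn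
    by_contra hK0
    rcases hmin (N ⊓ K) inferInstance inf_le_left with h | h
    · exact hB (hF.rz B N K h (hq N hne) (hq K hK0))
    · exact hn (h ▸ inf_le_right)
  obtain ⟨p, hp, hpd⟩ := Nat.exists_prime_and_dvd ((one_lt_card_iff_ne_bot N).2 hne).ne'
  haveI := Fact.mk hp
  refine ⟨p, hp, fun K hK hP => huq K hK fun hle => ?_, ?_⟩
  · obtain ⟨x, hx⟩ := exists_prime_orderOf_dvd_card' p hpd
    obtain ⟨k, h2, h3⟩ := hP x (hle x.2)
    have h4 : (x : B) ^ p ^ 1 = 1 := by
      rw [pow_one, ← hx, ← Subgroup.coe_pow, pow_orderOf_eq_one, Subgroup.coe_one]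
    have h5 : x = 1 := Subtype.ext (cop h2 h3 h4)
    rw [h5, orderOf_one] at hx
    exact hp.ne_one hx.symm
  by_cases hP : IsPGroup p N
  · obtain ⟨n, hnN, hn1, -, hnc⟩ := fixn hP hP hne
    have hc : ∀ a ∈ N, ∀ b ∈ N, a * b = b * a := by
      rcases hmin (N ⊓ centralizer (N : Set B)) inferInstance inf_le_left with h | h
      · have : n ∈ N ⊓ centralizer (N : Set B) := ⟨hnN, hnc⟩
        rw [h] at this
        exact absurd this hn1
      · intro a ha b hb
        rw [← h] at hb
        exact hb.2 a ha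
    have : ∃ M : Subgroup B, IsCoatom M ∧ ¬ N ≤ M := by
      by_contra hc
      push Not at hc
      exact hB (hF.frat (QuotientGroup.mk' N) (QuotientGroup.mk'_surjective N)
        (by rw [QuotientGroup.ker_mk']; exact le_frat hc) (hq N hne))
    obtain ⟨M, hM, hn⟩ := this
    have hs := hM.2 _ (left_lt_sup.2 hn)
    have hNM : N ⊓ M = ⊥ := by
      rcases hmin _ (inf_normal hs hc) inf_le_left with h | h
      · exact h
      · exact absurd (h ▸ inf_le_right) hn
    have k1 := coatom_onto (QuotientGroup.mk' N) (QuotientGroup.mk'_surjective N) hM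
      (by rw [QuotientGroup.ker_mk']) hn
    have k2 : Injective ((QuotientGroup.mk' N).comp M.subtype) := by
      rw [injective_iff_map_eq_one]
      intro a ha
      have : (a : B) ∈ N ⊓ M := ⟨(QuotientGroup.eq_one_iff _).1 ha, a.2⟩
      rw [hNM, mem_bot] at this
      exact Subtype.ext this
    let e := MulEquiv.ofBijective _ ⟨k2, k1⟩
    let ρ : B →* B := (M.subtype.comp e.symm.toMonoidHom).comp (QuotientGroup.mk' N)
    have hρ : ∀ b, b⁻¹ * ρ b ∈ N := fun b =>
      QuotientGroup.eq.1 (e.apply_symm_apply (b : B ⧸ N)).symm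
    have hρM : ∀ b, ρ b ∈ M := fun b => (e.symm (b : B ⧸ N)).2
    have hcj : ∀ b, ∀ u ∈ N, ρ b * u * (ρ b)⁻¹ = b * u * b⁻¹ := by
      intro b u hu
      calc ρ b * u * (ρ b)⁻¹ = b * ((b⁻¹ * ρ b) * u) * (ρ b)⁻¹ := by group
        _ = b * u * b⁻¹ := by rw [hc _ (hρ b) u hu]; group
    refine ⟨N, inferInstance, inferInstance, fun b u => MulAut.conjNormal b u, N.subtype, ρ, hP,
      ⟨fun b u v => map_mul _ u v, fun b c u => by rw [map_mul]; rfl, fun u => by simp, ?_⟩,
      (nontrivial_iff_ne_bot N).2 hne, fun b u => hcj b u u.2, fun b => ?_, fun b hb => ?_⟩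
    · intro S hS
      have : (S.map N.subtype).Normal := ⟨by
        rintro _ ⟨u, hu, rfl⟩ g
        exact ⟨_, hS g u hu, rfl⟩⟩
      rcases hmin _ this (map_subtype_le S) with h | h
      · exact Or.inl ((map_eq_bot_iff_of_injective S N.subtype_injective).1 h)
      · right
        rw [eq_top_iff]
        intro u _
        have : (u : B) ∈ S.map N.subtype := by rw [h]; exact u.2
        obtain ⟨v, hv, e⟩ := this
        exact (Subtype.ext e : v = u) ▸ hv
    · refine ⟨⟨b * (ρ b)⁻¹, ?_⟩, b, by simp⟩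
      have := hN.conj_mem _ (N.inv_mem (hρ b)) (ρ b)
      simpa using this
    · have hK : (M ⊓ centralizer (N : Set B)).Normal := ⟨by
        intro u hu g
        refine ⟨?_, (inferInstance : (centralizer (N : Set B)).Normal).conj_mem _ hu.2 g⟩
        have : g ∈ ((M ⊔ N : Subgroup B) : Set B) := by rw [hs]; trivial
        rw [Subgroup.mul_normal] at this
        obtain ⟨m, hm, a, ha, rfl⟩ := this
        have e : m * a * u * (m * a)⁻¹ = m * u * m⁻¹ := by
          rw [mul_assoc m, hu.2 a ha]; group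
        show m * a * u * (m * a)⁻¹ ∈ M
        rw [e]
        exact M.mul_mem (M.mul_mem hm hu.1) (M.inv_mem hm)⟩
      have h0 := huq _ hK fun h => hn (h.trans inf_le_left)
      have : ρ b ∈ M ⊓ centralizer (N : Set B) := ⟨hρM b, fun u hu => by
        have h2 := congrArg Subtype.val (hb ⟨u, hu⟩)
        rw [MulAut.conjNormal_apply, ← hcj b u hu] at h2
        exact (mul_inv_eq_iff_eq_mul.1 h2).symm⟩
      rwa [h0, mem_bot] at this
  · have : ∃ z ∈ N, z ≠ 1 ∧ ∃ k : ℕ, k.Coprime p ∧ z ^ k = 1 := by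
      unfold IsPGroup at hP
      push Not at hP
      obtain ⟨c, hc⟩ := hP
      obtain ⟨n, k, h1, h2⟩ := Nat.exists_eq_pow_mul_and_not_dvd (orderOf_pos c).ne' p hp.ne_one
      refine ⟨(c ^ p ^ n : N), (c ^ p ^ n).2, fun h => hc n (Subtype.ext h), k,
        (hp.coprime_iff_not_dvd.2 h1).symm, ?_⟩
      rw [← Subgroup.coe_pow, ← pow_mul, ← h2, pow_orderOf_eq_one, Subgroup.coe_one]
    obtain ⟨z, hzN, hz, k, hk, hzk⟩ := this
    obtain ⟨U, _, _, a, hU, ha, u, hu⟩ := exmod hz hk hzk
    have h1 : ∀ b, a b 1 = 1 := fun b => by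
      have := ha.hom b 1 1
      rw [mul_one] at this
      exact left_eq_mul.1 this
    refine ⟨U, inferInstance, inferInstance, a, 1, MonoidHom.id B, hU, ha,
      ⟨u, 1, fun h => hu (by rw [h, h1])⟩, by simp, fun b => ⟨1, b, by simp⟩, fun b hb => ?_⟩
    let K : Subgroup B :=
      { carrier := {b | ∀ u, a b u = u}
        one_mem' := ha.one
        mul_mem' := fun {b c} hb hc u => by rw [ha.mul, hc, hb]
        inv_mem' := fun {b} hb u => by rw [← hb (a b⁻¹ u), ← ha.mul, mul_inv_cancel, ha.one] }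
    have hK : K.Normal := ⟨fun b hb g u => by
      rw [ha.mul, ha.mul, hb, ← ha.mul, mul_inv_cancel, ha.one]⟩
    have h0 := huq K hK fun h => hu (h hzN u)
    have : b ∈ K := hb
    rwa [h0, mem_bot] at this

end Pool.Agent.Lib.GLS
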