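import Mathlib

set_option autoImplicit false

namespace Pool.Agent.Lib.helper16

theorem spec_aux (k : Type) [Field k] (s : Finset k) (L : Type) [Field L] [CharZero L]
    [Module.Finite ℚ L] (ψ : Subring.closure (s : Set k) →+* L) : ∃ N : ℕ, ∀ p : ℕ, p.Prime →
    N < p → ∃ (F : Type) (_ : Field F) (_ : CharP F p),
      Nonempty (Subring.closure (s : Set k) →+* F) := by
  classical
  haveI : Algebra.IsAlgebraic ℤ L := IsFractionRing.comap_isAlgebraic_iff.2
    (inferInstance : Algebra.IsAlgebraic ℚ L)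
  obtain ⟨N, hN, h⟩ := Algebra.IsAlgebraic.exists_integral_multiples ℤ
    (s.attach.image fun x : s => ψ ⟨x.1, Subring.subset_closure x.2⟩)
  refine ⟨N.natAbs, fun p hp hl => ?_⟩
  let T : Subring L :=
    { carrier := {y | ∃ n : ℕ, IsIntegral ℤ ((N : L) ^ n * y)}
      one_mem' := ⟨0, by simpa using isIntegral_one⟩
      zero_mem' := ⟨0, by simpa using isIntegral_zero⟩
      mul_mem' := by
        rintro a b ⟨n, ha⟩ ⟨l, hb⟩
        refine ⟨n + l, ?_⟩
        have e : (N : L) ^ (n + l) * (a * b) = N ^ n * a * (N ^ l * b) := by ring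
        rw [e]
        exact ha.mul hb
      add_mem' := by
        rintro a b ⟨n, ha⟩ ⟨l, hb⟩
        have c : IsIntegral ℤ (N : L) := isIntegral_algebraMap (x := N)
        refine ⟨n + l, ?_⟩
        have e : (N : L) ^ (n + l) * (a + b) = N ^ l * (N ^ n * a) + N ^ n * (N ^ l * b) := by
          ring
        rw [e]
        exact ((c.pow l).mul ha).add ((c.pow n).mul hb)
      neg_mem' := by
        rintro a ⟨n, ha⟩
        exact ⟨n, by simpa using ha.neg⟩ }
  have hT : ∀ x, ψ x ∈ T := by
    rintro ⟨x, hx⟩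
    induction hx using Subring.closure_induction with
    | mem x hx =>
      exact ⟨1, by simpa using h _ (Finset.mem_image.2 ⟨⟨x, hx⟩, Finset.mem_attach _ _, rfl⟩)⟩
    | zero => exact (map_zero ψ).symm ▸ T.zero_mem
    | one => exact (map_one ψ).symm ▸ T.one_mem
    | add x y hx hy a b => exact (map_add ψ ⟨x, hx⟩ ⟨y, hy⟩).symm ▸ T.add_mem a b
    | neg x hx a => exact (map_neg ψ ⟨x, hx⟩).symm ▸ T.neg_mem a
    | mul x y hx hy a b => exact (map_mul ψ ⟨x, hx⟩ ⟨y, hy⟩).symm ▸ T.mul_mem a b
  have hu : ¬ IsUnit (p : T) := by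
    intro hu
    obtain ⟨⟨y, n, hy⟩, e⟩ := hu.exists_right_inv
    have e' : (p : L) * y = 1 := by simpa using congrArg Subtype.val e
    have p0 : (p : ℚ) ≠ 0 := by exact_mod_cast hp.ne_zero
    have : (N : L) ^ n * y = algebraMap ℚ L (N ^ n / p) := by
      rw [eq_inv_of_mul_eq_one_right e']
      simp [div_eq_mul_inv]
    rw [this, isIntegral_algebraMap_iff (algebraMap ℚ L).injective,
      IsIntegrallyClosed.isIntegral_iff] at hy
    obtain ⟨z, hz⟩ := hy
    rw [eq_div_iff p0] at hz
    have hz' : (p : ℤ) ∣ N ^ n := ⟨z, by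
      rw [mul_comm]
      rw [eq_intCast] at hz
      exact_mod_cast hz.symm⟩
    have := Int.natAbs_le_of_dvd_ne_zero ((Nat.prime_iff_prime_int.1 hp).dvd_of_dvd_pow hz') hN
    simp at this
    omega
  obtain ⟨n, hn, hpn⟩ := exists_max_ideal_of_mem_nonunits hu
  letI : Field (T ⧸ n) := Ideal.Quotient.field n
  refine ⟨T ⧸ n, inferInstance, ?_, ⟨(Ideal.Quotient.mk n).comp (ψ.codRestrict T hT)⟩⟩
  refine (CharP.charP_iff_prime_eq_zero hp).2 ?_
  rw [← map_natCast (Ideal.Quotient.mk n), Ideal.Quotient.eq_zero_iff_mem]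
  exact hpn

/-- a finitely generated subring of a field of characteristic zero maps to fields of all large
prime characteristics -/
theorem spec (k : Type) [Field k] [CharZero k] (s : Finset k) : ∃ N : ℕ, ∀ p : ℕ, p.Prime →
    N < p → ∃ (F : Type) (_ : Field F) (_ : CharP F p),
      Nonempty (Subring.closure (s : Set k) →+* F) := by
  let S := Algebra.adjoin ℚ (s : Set k)
  haveI : Algebra.FiniteType ℚ S := (Subalgebra.fg_iff_finiteType _).1 ⟨s, rfl⟩
  obtain ⟨m, hm⟩ := Ideal.exists_maximal S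
  letI : Field (S ⧸ m) := Ideal.Quotient.field m
  have a := finite_of_finite_type_of_isJacobsonRing ℚ (S ⧸ m)
  have b := algebraRat.charZero (S ⧸ m)
  exact @spec_aux k _ s (S ⧸ m) _ b (by convert a <;> first | exact Subsingleton.elim _ _ | rfl)
    ((Ideal.Quotient.mk m).comp
      (Subring.inclusion (show Subring.closure (s : Set k) ≤ S.toSubring from
        Subring.closure_le.2 Algebra.subset_adjoin)))

end Pool.Agent.Lib.helper16
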